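import Pool.Agent.Lib.MP_446da5_lc.Full.Forcing

set_option autoImplicit false

open Set Filter Cardinal

namespace Pool.Agent.Lib.MP_446da5_lc.Both

open Full

universe u v

lemma small_union {T I : Type u} (hT : #T ≤ 𝔠) (S : T → Set I) (hS : ∀ t, #(S t) ≤ 𝔠) :
    #(⋃ t, S t) ≤ 𝔠 :=
  mk_iUnion_le_sum_mk.trans ((sum_le_sum _ (fun _ => 𝔠) hS).trans (by
    rw [sum_const']
    exact mul_le_of_le aleph0_le_continuum hT le_rfl))

lemma small_or {I : Type u} {S S' : Set I} (h : #S ≤ 𝔠) (h' : #S' ≤ 𝔠) : #(S ∪ S' : Set I) ≤ 𝔠 :=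
  (mk_union_le _ _).trans (add_le_of_le aleph0_le_continuum h h')

lemma small_cnt {I : Type u} {S : Set I} (h : S.Countable) : #S ≤ 𝔠 :=
  (le_aleph0_iff_set_countable.2 h).trans aleph0_le_continuum

lemma small_type (T : Type u) [Countable T] : #T ≤ 𝔠 := mk_le_aleph0.trans aleph0_le_continuum

/-- Two-valued maps defined on at most continuum many points of `I`. -/
structure CondL (I : Type u) where
  f : I → Option Bool
  cnt : #{i | f i ≠ none} ≤ 𝔠

namespace CondL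

variable {I : Type u}

instance : Preorder (CondL I) where
  le p q := ∀ i ε, q.f i = some ε → p.f i = some ε
  le_refl _ _ _ h := h
  le_trans _ _ _ h h' i ε hr := h i ε (h' i ε hr)

lemma le_def {p q : CondL I} : p ≤ q ↔ ∀ i ε, q.f i = some ε → p.f i = some ε := Iff.rfl

instance : OrderTop (CondL I) where
  top := ⟨fun _ => none, by simp⟩
  le_top _ _ _ h := by cases h

lemma cnt' (p : CondL I) : #{i | ∃ ε, p.f i = some ε} ≤ 𝔠 :=
  (mk_le_mk_of_subset (s := {i | ∃ ε, p.f i = some ε}) fun _ ⟨_, h⟩ => by simp [h]).trans p.cnt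

lemma exists_of_rel (R : I → Bool → Prop) (h1 : ∀ i ε ε', R i ε → R i ε' → ε = ε')
    (h2 : #{i | ∃ ε, R i ε} ≤ 𝔠) : ∃ r : CondL I, ∀ i ε, r.f i = some ε ↔ R i ε := by
  classical
  refine ⟨⟨fun i => if h : ∃ ε, R i ε then some h.choose else none,
    (mk_le_mk_of_subset fun i hi => ?_).trans h2⟩, fun i ε => ?_⟩
  · by_contra hn
    exact hi (dif_neg hn)
  · by_cases h : ∃ ε, R i ε
    · simp only [dif_pos h, Option.some.injEq]
      exact ⟨fun h' => h' ▸ h.choose_spec, fun h' => h1 _ _ _ h.choose_spec h'⟩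
    · simp only [dif_neg h, reduceCtorEq, false_iff]
      exact fun h' => h ⟨ε, h'⟩

lemma exists_lb {T : Type u} (hT : #T ≤ 𝔠) (p : T → CondL I)
    (h : ∀ s t i ε ε', (p s).f i = some ε → (p t).f i = some ε' → ε = ε') :
    ∃ r, ∀ t, r ≤ p t := by
  obtain ⟨r, hr⟩ := exists_of_rel (fun i ε => ∃ t, (p t).f i = some ε)
    (fun i ε ε' ⟨s, hs⟩ ⟨t, ht⟩ => h s t i ε ε' hs ht)
    ((mk_le_mk_of_subset (by
      rintro i ⟨ε, t, ht⟩
      exact mem_iUnion.2 ⟨t, ε, ht⟩)).trans (small_union hT _ fun t => (p t).cnt'))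
  exact ⟨r, fun t i ε hi => (hr i ε).2 ⟨t, hi⟩⟩

lemma eq_of_le {r p q : CondL I} (hp : r ≤ p) (hq : r ≤ q) {i : I} {ε ε' : Bool}
    (h : p.f i = some ε) (h' : q.f i = some ε') : ε = ε' :=
  Option.some.inj ((hp i ε h).symm.trans (hq i ε' h'))

lemma exists_lb_chain {T : Type u} (hT : #T ≤ 𝔠) (p : T → CondL I)
    (h : ∀ s t, p s ≤ p t ∨ p t ≤ p s) : ∃ r, ∀ t, r ≤ p t :=
  exists_lb hT p fun s t _ _ _ h1 h2 => (h s t).elim (fun h => eq_of_le le_rfl h h1 h2)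
    (fun h => eq_of_le h le_rfl h1 h2)

open Classical in
noncomputable def single (i : I) (ε : Bool) : CondL I :=
  ⟨fun j => if j = i then some ε else none, small_cnt ((countable_singleton i).mono fun j hj => by
    by_contra hn
    exact hj (if_neg hn))⟩

lemma single_f {i j : I} {ε ε' : Bool} : (single i ε).f j = some ε' ↔ j = i ∧ ε = ε' := by
  by_cases h : j = i <;> simp [single, h]

lemma le_single {p : CondL I} {i : I} {ε : Bool} : p ≤ single i ε ↔ p.f i = some ε :=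
  ⟨fun h => h i ε (single_f.2 ⟨rfl, rfl⟩), fun h j ε' hj => by
    obtain ⟨rfl, rfl⟩ := single_f.1 hj
    exact h⟩

lemma exists_ext (p : CondL I) (i : I) (ε : Bool) (h : p.f i ≠ some (!ε)) :
    ∃ r ≤ p, r.f i = some ε ∧ ∀ j ε', r.f j = some ε' → j = i ∨ p.f j = some ε' := by
  obtain ⟨r, hr⟩ := exists_of_rel (fun j ε' => p.f j = some ε' ∨ (j = i ∧ ε' = ε)) (by
    rintro j e1 e2 (h1 | ⟨rfl, rfl⟩) (h2 | ⟨h2, rfl⟩)
    · exact eq_of_le le_rfl le_rfl h1 h2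
    · subst h2
      rw [h1] at h
      revert h; cases e1 <;> cases e2 <;> simp
    · rw [h2] at h
      revert h; cases e1 <;> cases e2 <;> simp
    · rfl) ((mk_le_mk_of_subset (by
      rintro j ⟨e, h | ⟨rfl, -⟩⟩
      · exact Or.inl ⟨e, h⟩
      · exact Or.inr rfl)).trans (small_or p.cnt' (small_cnt (countable_singleton i))))
  exact ⟨r, fun j e hj => (hr j e).2 (Or.inl hj), (hr i ε).2 (Or.inr ⟨rfl, rfl⟩),
    fun j e hj => ((hr j e).1 hj).symm.imp_left And.left⟩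

end CondL

open CondL

variable {L I : Type u}

abbrev BB (L I : Type u) : Type u := RO (Cond L × CondL I)

instance : Nontrivial (BB L I) := ⟨⟨emb ⊤, ⊥, emb_ne_bot _⟩⟩

noncomputable def sg (i : I) (ε : Bool) : BB L I := emb (⊤, single i ε)

lemma emb_le_sg {p : Cond L × CondL I} {i : I} {ε : Bool} :
    emb p ≤ (sg i ε : BB L I) ↔ p.2.f i = some ε := by
  refine ⟨fun h => ?_, fun h => emb_mono ⟨le_top, le_single.2 h⟩⟩
  by_contra hn
  obtain ⟨r, hr, hr', -⟩ := p.2.exists_ext i (!ε) (by simpa using hn)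
  obtain ⟨s, hs, hs'⟩ := emb_compat (p := (p.1, r)) (q := ((⊤ : Cond L), single i ε)) (by
    rw [inf_eq_left.2 (show emb (p.1, r) ≤ emb ((⊤ : Cond L), single i ε) from
      (emb_mono (p := (p.1, r)) (q := p) (Prod.le_def.2 ⟨le_rfl, hr⟩)).trans h)]
    exact emb_ne_bot _)
  have := eq_of_le hs.2 hs'.2 hr' (single_f.2 ⟨rfl, rfl⟩)
  simp at this

lemma emb_le_left {p : Cond L × CondL I} {d : Cond L} :
    emb p ≤ (emb (d, ⊤) : BB L I) ↔ p.1 ≤ d := by
  refine ⟨fun h i ε hi => ?_, fun h => emb_mono ⟨h, le_top⟩⟩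
  by_contra hn
  obtain ⟨r, hr, hr', -⟩ := p.1.exists_ext i (!ε) (by simpa using hn)
  obtain ⟨s, hs, hs'⟩ := emb_compat (p := (r, p.2)) (q := (d, (⊤ : CondL I))) (by
    rw [inf_eq_left.2 (show emb (r, p.2) ≤ emb (d, (⊤ : CondL I)) from
      (emb_mono (p := (r, p.2)) (q := p) (Prod.le_def.2 ⟨hr, le_rfl⟩)).trans h)]
    exact emb_ne_bot _)
  have := Cond.eq_of_le hs.1 hs'.1 hr' hi
  simp at this

lemma le_emb {b : BB L I} {d : Cond L × CondL I} (h0 : b ≤ emb (d.1, ⊤))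
    (h : ∀ i ε, d.2.f i = some ε → b ≤ sg i ε) : b ≤ emb d := by
  by_contra hn
  obtain ⟨r, hr⟩ := exists_emb_le (inf_compl_ne_bot hn)
  have h1 : r ≤ d := ⟨emb_le_left.1 ((hr.trans inf_le_left).trans h0),
    fun i ε hi => emb_le_sg.1 ((hr.trans inf_le_left).trans (h i ε hi))⟩
  exact emb_ne_bot r (eq_bot_of_le_compl (emb_mono h1) (hr.trans inf_le_right))

lemma emb_le_emb {p d : Cond L × CondL I} : (emb p : BB L I) ≤ emb d ↔ p ≤ d :=
  ⟨fun h => ⟨emb_le_left.1 (h.trans (emb_mono ⟨le_rfl, le_top⟩)),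
    fun _ _ hi => emb_le_sg.1 (h.trans (emb_le_sg.2 hi))⟩, emb_mono⟩

lemma distrib_nat (E : ℕ → BB L I → Prop) (h1 : ∀ n, ∀ b ≠ ⊥, ∃ b' ≤ b, b' ≠ ⊥ ∧ E n b')
    (h2 : ∀ n b b', b' ≤ b → E n b → E n b') (b : BB L I) (hb : b ≠ ⊥) :
    ∃ b' ≤ b, b' ≠ ⊥ ∧ ∀ n, E n b' := by
  have step : ∀ (n : ℕ) (p : Cond L × CondL I), ∃ p' ≤ p, E n (emb p') := by
    intro n p
    obtain ⟨b', hb', hb0, hE⟩ := h1 n _ (emb_ne_bot p)
    obtain ⟨p', hp', h⟩ := exists_emb_le' (b := b') (p := p) (by rwa [inf_eq_left.2 hb'])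
    exact ⟨p', hp', h2 n _ _ h hE⟩
  choose st hst1 hst2 using step
  obtain ⟨p0, hp0⟩ := exists_emb_le hb
  let s : ℕ → Cond L × CondL I := fun n => Nat.rec p0 (fun n p => st n p) n
  have hanti : Antitone s := antitone_nat_of_succ_le fun n => hst1 n (s n)
  obtain ⟨r, hr⟩ := Cond.exists_lb_chain (fun n => (s n).1) fun m n =>
    (le_total n m).imp (fun h => (hanti h).1) fun h => (hanti h).1
  obtain ⟨r', hr'⟩ := exists_lb_chain (small_type (ULift.{u} ℕ)) (fun n => (s n.down).2)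
    fun m n => (le_total n.down m.down).imp (fun h => (hanti h).2) fun h => (hanti h).2
  have hle : ∀ n, (r, r') ≤ s n := fun n => ⟨hr n, hr' ⟨n⟩⟩
  exact ⟨emb (r, r'), (emb_mono (hle 0)).trans hp0, emb_ne_bot _,
    fun n => h2 n _ _ (emb_mono (hle (n + 1))) (hst2 n (s n))⟩

lemma distrib_cnt {T : Type v} {S : Set T} (hS : S.Countable) (E : T → BB L I → Prop)
    (h1 : ∀ t, ∀ b ≠ ⊥, ∃ b' ≤ b, b' ≠ ⊥ ∧ E t b')
    (h2 : ∀ t b b', b' ≤ b → E t b → E t b') (b : BB L I) (hb : b ≠ ⊥) :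
    ∃ b' ≤ b, b' ≠ ⊥ ∧ ∀ t ∈ S, E t b' := by
  rcases S.eq_empty_or_nonempty with rfl | hne
  · exact ⟨b, le_rfl, hb, by simp⟩
  obtain ⟨f, rfl⟩ := hS.exists_eq_range hne
  obtain ⟨b', k1, k2, k3⟩ := distrib_nat (fun n => E (f n)) (fun n => h1 _) (fun n => h2 _) b hb
  exact ⟨b', k1, k2, by rintro _ ⟨n, rfl⟩; exact k3 n⟩

section germs

variable {K : Type u}

/-- Every map into `T` is constant almost everywhere. -/
def Comp (U : Ultrafilter K) (T : Type v) : Prop := ∀ f : K → T, ∃ t, ∀ᶠ α in U, f α = t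

variable {U : Ultrafilter K}

lemma Comp.all {T : Type v} (h : Comp U T) {p : T → K → Prop} (hp : ∀ t, ∀ᶠ α in U, p t α) :
    ∀ᶠ α in U, ∀ t, p t α := by
  by_contra hn
  rw [← Ultrafilter.eventually_not] at hn
  have : Nonempty T := by
    obtain ⟨α, hα⟩ := hn.exists
    obtain ⟨t, -⟩ := not_forall.1 hα
    exact ⟨t⟩
  obtain ⟨f, hf⟩ := Filter.skolem.1 (hn.mono fun α hα => not_forall.1 hα)
  obtain ⟨t, ht⟩ := h f
  obtain ⟨α, ⟨k1, k2⟩, k3⟩ := ((hf.and ht).and (hp t)).exists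
  exact k1 (k2 ▸ k3)

lemma Comp.of_inj {T : Type v} {S : Type*} (h : Comp U T) {e : S → T} (he : Function.Injective e) :
    Comp U S := fun f => by
  obtain ⟨t, ht⟩ := h (e ∘ f)
  obtain ⟨α, hα⟩ := ht.exists
  exact ⟨f α, ht.mono fun β hβ => he (hβ.trans hα.symm)⟩

lemma Comp.pi {T : Type v} {S : Type*} (h : Comp U T) (h' : Comp U S) : Comp U (T → S) :=
  fun f => by
    choose g hg using fun t => h' fun α => f α t
    exact ⟨g, (h.all hg).mono fun α hα => funext hα⟩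

lemma Comp.prod {T : Type v} {S : Type*} (h : Comp U T) (h' : Comp U S) : Comp U (T × S) :=
  fun f => by
    obtain ⟨a, ha⟩ := h fun α => (f α).1
    obtain ⟨b, hb⟩ := h' fun α => (f α).2
    exact ⟨(a, b), (ha.and hb).mono fun α hα => Prod.ext hα.1 hα.2⟩

variable {R : Set (K → I)}

noncomputable def ext (q : CondL R) (α : K) : BB L I :=
  ⨅ (g : R) (ε : Bool) (_ : q.f g = some ε), sg (g.1 α) ε

lemma ext_le {q : CondL R} {g : R} {ε : Bool} (h : q.f g = some ε) (α : K) :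
    (ext q α : BB L I) ≤ sg (g.1 α) ε := iInf_le_of_le g (iInf₂_le ε h)

lemma ext_mono {q q' : CondL R} (h : q' ≤ q) (α : K) : (ext q' α : BB L I) ≤ ext q α :=
  le_iInf fun g => le_iInf₂ fun ε hg => ext_le (h g ε hg) α

variable [CountableInterFilter (U : Filter K)]

lemma comp_cnt (T : Type v) [Countable T] : Comp U T := fun f => exists_ev_eq f

lemma comp_small {T : Type u} (h : #T ≤ 𝔠) : Comp U T := by
  obtain ⟨e⟩ := (Cardinal.le_def T (ULift.{u} (ℕ → Bool))).1 (by simpa using h)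
  exact (((comp_cnt ℕ).pi (comp_cnt Bool)).of_inj ULift.down_injective).of_inj e.injective

lemma ev_small_ball {T : Type u} {S : Set T} (h : #S ≤ 𝔠) {p : T → K → Prop}
    (hp : ∀ t ∈ S, ∀ᶠ α in U, p t α) : ∀ᶠ α in U, ∀ t ∈ S, p t α :=
  ((comp_small h).all (p := fun t : S => p t.1) fun t => hp t.1 t.2).mono
    fun _ k t ht => k ⟨t, ht⟩

omit [CountableInterFilter (U : Filter K)] in
lemma Comp.cond [CountableInterFilter (U : Filter K)] (h : Comp U L) : Comp U (Cond L) :=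
  (h.pi (comp_cnt (Option Bool))).of_inj (e := Cond.f) fun ⟨_, _⟩ ⟨_, _⟩ e => by
    cases e
    rfl

lemma ev_ext_ne_bot (hR : Reps U R) {b : BB L I} (hb : b ≠ ⊥) (q : CondL R) :
    ∀ᶠ α in U, b ⊓ ext q α ≠ ⊥ := by
  obtain ⟨p, hp⟩ := exists_emb_le hb
  have h1 : ∀ᶠ α in U, ∀ g ∈ {g | ∃ ε, q.f g = some ε}, ∀ g' ∈ {g | ∃ ε, q.f g = some ε},
      g.1 α = g'.1 α → g = g' :=
    ev_small_ball q.cnt' fun g _ => ev_small_ball q.cnt' fun g' _ => by
      by_cases h : g = g'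
      · exact Eventually.of_forall fun _ _ => h
      · exact (hR.1 _ g.2 _ g'.2 (Subtype.coe_injective.ne h)).mono fun _ h h' => (h h').elim
  have h2 : ∀ᶠ α in U, ∀ g ∈ {g | ∃ ε, q.f g = some ε}, ∀ i ∈ {i | ∃ ε, p.2.f i = some ε},
      g.1 α ≠ i :=
    ev_small_ball q.cnt' fun g _ => ev_small_ball p.2.cnt' fun i _ => hR.2.1 _ g.2 i
  filter_upwards [h1, h2] with α h1 h2
  obtain ⟨r, hr⟩ := exists_of_rel
    (fun i ε => p.2.f i = some ε ∨ ∃ g : R, q.f g = some ε ∧ g.1 α = i) (by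
      rintro i e e' (k | ⟨g, k, rfl⟩) (k' | ⟨g', k', k''⟩)
      · exact eq_of_le le_rfl le_rfl k k'
      · exact (h2 g' ⟨_, k'⟩ i ⟨_, k⟩ k'').elim
      · exact (h2 g ⟨_, k⟩ _ ⟨_, k'⟩ rfl).elim
      · rw [h1 g' ⟨_, k'⟩ g ⟨_, k⟩ k''] at k'
        exact eq_of_le le_rfl le_rfl k k')
    ((mk_le_mk_of_subset (t := {i | ∃ ε, p.2.f i = some ε} ∪
      (fun g : R => g.1 α) '' {g | ∃ ε, q.f g = some ε}) (by
      rintro i ⟨e, k | ⟨g, k, rfl⟩⟩
      · exact Or.inl ⟨e, k⟩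
      · exact Or.inr ⟨g, ⟨e, k⟩, rfl⟩)).trans (small_or p.2.cnt' (mk_image_le.trans q.cnt')))
  intro h0
  refine emb_ne_bot (p.1, r) (le_bot_iff.1 (h0 ▸ le_inf
    ((emb_mono (p := (p.1, r)) (q := p)
      (Prod.le_def.2 ⟨le_rfl, fun i ε h => ?_⟩)).trans hp) ?_))
  · exact (hr i ε).2 (Or.inl h)
  · exact le_iInf fun g => le_iInf₂ fun ε hg => emb_le_sg.2 ((hr _ ε).2 (Or.inr ⟨g, hg, rfl⟩))

lemma analyze [Nonempty I] (hL : Comp U L) (hR : Reps U R) (r : K → Cond L × CondL I) :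
    ∃ (p' : Cond L × CondL I) (q' : CondL R), (∀ᶠ α in U, (r α).1 = p'.1) ∧
    (∀ i ε, (∀ᶠ α in U, (r α).2.f i = some ε) → p'.2.f i = some ε) ∧
    (∀ (g : R) ε, (∀ᶠ α in U, (r α).2.f (g.1 α) = some ε) → q'.f g = some ε) ∧
    ∀ᶠ α in U, emb p' ⊓ ext q' α ≤ emb (r α) := by
  have hE : #(ULift.{u} (ℕ → Bool)) ≤ 𝔠 := by simp
  have hen : ∀ α, ∃ en : ULift.{u} (ℕ → Bool) → I,
      {i | ∃ ε, (r α).2.f i = some ε} ⊆ range en := fun α => by
    obtain ⟨e⟩ := (Cardinal.le_def {i | ∃ ε, (r α).2.f i = some ε} (ULift.{u} (ℕ → Bool))).1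
      (by simpa using (r α).2.cnt')
    exact ⟨Function.extend e Subtype.val fun _ => Classical.arbitrary I, fun i hi =>
      ⟨e ⟨i, hi⟩, e.injective.extend_apply _ _ _⟩⟩
  choose en hen using hen
  obtain ⟨p1, hp1⟩ := hL.cond fun α => (r α).1
  have hfun : ∀ (g : K → I) (e e' : Bool), (∀ᶠ α in U, (r α).2.f (g α) = some e) →
      (∀ᶠ α in U, (r α).2.f (g α) = some e') → e = e' := fun g e e' h h' => by
    obtain ⟨α, k, k'⟩ := (h.and h').exists
    exact eq_of_le le_rfl le_rfl k k'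
  have hidx : ∀ (g : K → I) (e : Bool), (∀ᶠ α in U, (r α).2.f (g α) = some e) →
      ∃ n, ∀ᶠ α in U, en α n = g α := fun g e h => by
    by_contra hn
    push Not at hn
    have : ∀ᶠ α in U, ∀ n, en α n ≠ g α := (comp_small hE).all hn
    obtain ⟨α, k, k'⟩ := (h.and this).exists
    obtain ⟨n, hn⟩ := hen α ⟨e, k⟩
    exact k' n hn
  obtain ⟨p', hp'⟩ := exists_of_rel (fun i ε => ∀ᶠ α in U, (r α).2.f i = some ε)
    (fun i => hfun fun _ => i) (by
      refine (mk_le_mk_of_subset ?_).trans (small_union hE _ fun n => small_cnt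
        (Set.Subsingleton.countable (s := {i | ∀ᶠ α in U, en α n = i}) ?_))
      · rintro i ⟨e, h⟩
        exact mem_iUnion.2 (hidx (fun _ => i) e h)
      · intro i hi j hj
        obtain ⟨α, k, k'⟩ := (Filter.Eventually.and hi hj).exists
        exact k.symm.trans k')
  obtain ⟨q', hq'⟩ := exists_of_rel (fun (g : R) ε => ∀ᶠ α in U, (r α).2.f (g.1 α) = some ε)
    (fun g => hfun g.1) (by
      refine (mk_le_mk_of_subset ?_).trans (small_union hE _ fun n => small_cnt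
        (Set.Subsingleton.countable (s := {g : R | ∀ᶠ α in U, en α n = g.1 α}) ?_))
      · rintro g ⟨e, h⟩
        exact mem_iUnion.2 (hidx g.1 e h)
      · intro g hg g' hg'
        by_contra hne
        obtain ⟨α, ⟨k, k'⟩, k''⟩ := ((Filter.Eventually.and hg hg').and
          (hR.1 _ g.2 _ g'.2 (Subtype.coe_injective.ne hne))).exists
        exact k'' (k.symm.trans k'))
  refine ⟨(p1, p'), q', hp1, fun i ε => (hp' i ε).2, fun g ε => (hq' g ε).2, ?_⟩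
  have key : ∀ᶠ α in U, ∀ n, ∀ ε, (r α).2.f (en α n) = some ε →
      emb (p1, p') ⊓ ext q' α ≤ sg (en α n) ε := by
    refine (comp_small hE).all fun n => ?_
    obtain ⟨v, hv⟩ := exists_ev_eq (U := U) fun α => (r α).2.f (en α n)
    rcases hR.2.2 (fun α => en α n) with ⟨i, hi⟩ | ⟨g, hg, hi⟩
    · filter_upwards [hv, hi] with α k k' ε h
      rw [k']
      refine inf_le_left.trans (emb_le_sg.2 ((hp' i ε).2 ?_))
      filter_upwards [hv, hi] with β j j'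
      rw [← j', j, ← k, h]
    · filter_upwards [hv, hi] with α k k' ε h
      rw [k']
      refine inf_le_right.trans (ext_le (g := ⟨g, hg⟩) ((hq' _ ε).2 ?_) α)
      filter_upwards [hv, hi] with β j j'
      rw [← j', j, ← k, h]
  filter_upwards [key, hp1] with α k k1
  refine le_emb (inf_le_left.trans (emb_mono ⟨k1.ge, le_top⟩)) fun i ε h => ?_
  obtain ⟨n, rfl⟩ := hen α ⟨ε, h⟩
  exact k n ε h

lemma ext_dense [Nonempty I] (hL : Comp U L) (hR : Reps U R) (D : K → BB L I → Prop)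
    (hD : ∀ α, ∀ b ≠ ⊥, ∃ b' ≤ b, b' ≠ ⊥ ∧ D α b') {b : BB L I} (hb : b ≠ ⊥) (q : CondL R) :
    ∃ b' ≤ b, b' ≠ ⊥ ∧ ∃ q' ≤ q, ∃ d : K → BB L I, (∀ α, D α (d α)) ∧
      ∀ᶠ α in U, b' ⊓ ext q' α ≤ d α := by
  obtain ⟨p, hp⟩ := exists_emb_le hb
  have hex : ∀ α, ∃ (d : BB L I) (r : Cond L × CondL I), D α d ∧ emb r ≤ d ∧
      (emb p ⊓ ext q α ≠ ⊥ → emb r ≤ emb p ⊓ ext q α) := by
    intro α
    by_cases h : emb p ⊓ ext q α = ⊥
    · obtain ⟨d, -, h0, hd⟩ := hD α ⊤ top_ne_bot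
      obtain ⟨r, hr⟩ := exists_emb_le h0
      exact ⟨d, r, hd, hr, fun h' => (h' h).elim⟩
    · obtain ⟨d, h1, h0, hd⟩ := hD α _ h
      obtain ⟨r, hr⟩ := exists_emb_le h0
      exact ⟨d, r, hd, hr, fun _ => hr.trans h1⟩
  choose d r hd hrd hr using hex
  have hr' : ∀ᶠ α in U, emb (r α) ≤ emb p ⊓ ext q α :=
    (ev_ext_ne_bot hR (emb_ne_bot p) q).mono hr
  obtain ⟨p', q', h0, hp', hq', h⟩ := analyze hL hR r
  refine ⟨emb p', (emb_mono (p := p') (q := p)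
    (Prod.le_def.2 ⟨?_, fun i ε h => hp' i ε ?_⟩)).trans hp, emb_ne_bot _, q',
    fun g ε h => hq' g ε ?_, d, hd, h.mono fun α k => k.trans (hrd α)⟩
  · obtain ⟨α, k, k'⟩ := (h0.and hr').exists
    exact k ▸ (emb_le_emb.1 (k'.trans inf_le_left)).1
  · exact hr'.mono fun α k => emb_le_sg.1 ((k.trans inf_le_left).trans (emb_le_sg.2 h))
  · exact hr'.mono fun α k => emb_le_sg.1 ((k.trans inf_le_right).trans (ext_le h α))

/-- The chain condition coming from the ultrafilter. -/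
lemma cc_of_reps [Nonempty I] (hL : Comp U L) (hR : Reps U R) (b : K → BB L I)
    (hb : ∀ α, b α ≠ ⊥) : ∀ᶠ α0 in U, ∀ᶠ α in U, b α0 ⊓ b α ≠ ⊥ := by
  choose r hr using fun α => exists_emb_le (hb α)
  obtain ⟨p', q', -, -, -, h⟩ := analyze hL hR r
  filter_upwards [h, ev_ext_ne_bot hR (emb_ne_bot p') q'] with α0 k k'
  filter_upwards [h, ev_ext_ne_bot hR k' q'] with α j j' h0
  refine j' (le_bot_iff.1 (h0 ▸ le_inf (inf_le_left.trans (k.trans (hr α0))) ?_))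
  exact (inf_le_inf_right _ inf_le_left).trans (j.trans (hr α))

end germs

end Pool.Agent.Lib.MP_446da5_lc.Both
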