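import Mathlib

set_option autoImplicit false

namespace Pool.Agent.Lib.MP_446da5_lc.Both

open ZFSet

/-- In `N`, `2 ^ γ` is below `κ`: some function `f ∈ N` takes every subset of `γ` that lies in `N`
as a value at a point of some `δ < κ`. -/
def SmallPow (N : Set ZFSet.{0}) (γ κ : ZFSet.{0}) : Prop :=
  ∃ δ ∈ κ, ∃ f ∈ N, (∀ ξ x y, pair ξ x ∈ f → pair ξ y ∈ f → x = y) ∧
    ∀ x ∈ N, x ⊆ γ → ∃ ξ ∈ δ, pair ξ x ∈ f

end Pool.Agent.Lib.MP_446da5_lc.Both
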