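import Pool.Agent.Lib.MP_446da5_lc.Full.ZFC
import Pool.Agent.Lib.MP_446da5_lc.Full.Game

set_option autoImplicit false

open Set
open scoped symmDiff

namespace Pool.Agent.Lib.MP_446da5_lc.Both

open Pool.Agent.Lib.MP_446da5_lc.Full

universe u v w

variable {B : Type u} [CompleteBooleanAlgebra B] {Γ : Type u} [LinearOrder Γ] {K : Type u}
  {S : (Γ → K → B) → Γ → B}

lemma CC_congr (hS : Local S) {a a' : Γ → K → B} {n : Γ} {b : B}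
    (h : ∀ ζ ≤ n, ∀ x, b ≤ a ζ x ⇔ a' ζ x) (x : K) : b ⊓ CC S a n x ≤ CC S a' n x :=
  le_iInf₂ fun ζ hζ => bi_trans (bi_symm (inf_le_left.trans (h ζ hζ x)))
    (bi_trans (inf_le_right.trans (CC_le a x hζ))
      (inf_le_left.trans (hS _ _ ζ b fun η hη => h η (hη.trans hζ))))

lemma CC_anti (a : Γ → K → B) {n n' : Γ} (h : n ≤ n') (x : K) : CC S a n' x ≤ CC S a n x :=
  le_iInf₂ fun _ hζ => CC_le a x (hζ.trans h)

lemma FF_le_CC (a : Γ → K → B) (n : Γ) (x : K) : FF S a x ≤ CC S a n x :=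
  le_iInf₂ fun ζ _ => FF_le a x ζ

lemma FF_le_CC' (hS : Local S) {a a' : Γ → K → B} {n : Γ} (h : ∀ ζ ≤ n, a ζ = a' ζ) (x : K) :
    FF S a x ≤ CC S a' n x :=
  (le_inf le_top (FF_le_CC a n x)).trans
    (CC_congr hS (fun ζ hζ y => by rw [h ζ hζ]; exact bi_refl) x)

lemma bi_of_le {p a b : B} (ha : p ≤ a) (hb : p ≤ b) : p ≤ a ⇔ b :=
  (le_inf ha hb).trans inf_le_bihimp

lemma bi_of_le_compl {p a b : B} (ha : p ≤ aᶜ) (hb : p ≤ bᶜ) : p ≤ a ⇔ b :=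
  le_bi_iff'.2 ⟨(eq_bot_of_le_compl inf_le_right (inf_le_left.trans ha)).le.trans bot_le,
    (eq_bot_of_le_compl inf_le_right (inf_le_left.trans hb)).le.trans bot_le⟩

lemma bi_mp {p a b : B} (h : p ≤ a ⇔ b) (ha : p ≤ a) : p ≤ b :=
  (le_inf le_rfl ha).trans (le_bi_iff'.1 h).1

lemma bi_mt {p a b : B} (h : p ≤ a ⇔ b) (ha : p ≤ aᶜ) : p ≤ bᶜ :=
  le_compl_iff_disjoint_right.2 (disjoint_iff.2
    (eq_bot_of_le_compl (le_bi_iff'.1 h).2 (inf_le_left.trans ha)))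

lemma le_of_cases {p a z : B} (h : p ⊓ a ≤ z) (h' : p ⊓ aᶜ ≤ z) : p ≤ z := by
  rw [← inf_top_eq p, ← sup_compl_eq_top (x := a), inf_sup_left]
  exact sup_le h h'

section steer

variable {J : Type w} {Bt : J → K → B} {c : Γ → B} {Fr : B → Γ → Prop} {p0 : B}
  {a0 : Γ → K → B} {n0 : Γ}

/-- Below `p1`, whichever value of the bit `j` is imposed on the current set of a play extending
the position `(a1, n1)`, it is the value `V j`. -/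
def Pack (S : (Γ → K → B) → Γ → B) (Bt : J → K → B) (a1 : Γ → K → B) (n1 : Γ) (p1 : B)
    (V : J → B) : Prop :=
  ∀ a, (∀ ζ ≤ n1, a ζ = a1 ζ) → ∀ n j p β, (∀ x, p ⊓ CC S a n x ≤ Bt j x ⇔ β) →
    p1 ⊓ p ≤ V j ⇔ β

lemma pack_or_split (hS : Local S)
    (hF1 : ∀ p ≠ ⊥, ∀ ξ, ∃ p' ≤ p, p' ≠ ⊥ ∧ ∃ η, ξ < η ∧ Fr p' η)
    (a : Γ → K → B) (n ξ : Γ) {p : B} (hn : ∀ V, ¬ Pack S Bt a n p V) :
    ∃ p' ≤ p, p' ≠ ⊥ ∧ ∃ (η : Γ) (j : J) (a' : Γ → K → B) (n' : Γ), ξ < η ∧ Fr p' η ∧ n ≤ n' ∧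
      (∀ ζ ≤ n, a' ζ = a ζ) ∧ ∀ x, p' ⊓ CC S a' n' x ≤ c η ⇔ Bt j x := by
  have h := hn fun j => ⨆ (q : B) (_ : ∃ a' n', (∀ ζ ≤ n, a' ζ = a ζ) ∧
    ∀ x, q ⊓ CC S a' n' x ≤ Bt j x), q
  simp only [Pack, not_forall] at h
  obtain ⟨af, haf, nf, j, q, β, hq, hne⟩ := h
  have h1 : p ⊓ q ⊓ β ≤ ⨆ (q : B) (_ : ∃ a' n', (∀ ζ ≤ n, a' ζ = a ζ) ∧
      ∀ x, q ⊓ CC S a' n' x ≤ Bt j x), q :=
    le_iSup₂_of_le (f := fun (q : B) (_ : ∃ a' n', (∀ ζ ≤ n, a' ζ = a ζ) ∧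
      ∀ x, q ⊓ CC S a' n' x ≤ Bt j x) => q) (q ⊓ β) ⟨af, nf, haf, fun x =>
        bi_mp (bi_symm ((inf_le_inf_right _ inf_le_left).trans (hq x)))
          (inf_le_left.trans inf_le_right)⟩ (inf_le_inf_right _ inf_le_right)
  have h2 := inf_compl_ne_bot fun k => hne (le_bi_iff'.2 ⟨k, h1⟩)
  obtain ⟨q', h3⟩ := exists_inf_ne_bot h2 (inf_le_left.trans inf_le_right)
  obtain ⟨⟨at', nt, hat, hq'⟩, h4⟩ := exists_inf_ne_bot h3 inf_le_right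
  obtain ⟨p', hp', hp0, η, hη, hFr⟩ := hF1 _ h4 ξ
  have k0 := (hp'.trans inf_le_left).trans inf_le_left
  have k1 : p' ≤ q := (k0.trans (inf_le_left.trans inf_le_left)).trans inf_le_right
  have k2 : p' ≤ βᶜ := k0.trans inf_le_right
  have k3 : p' ≤ q' := hp'.trans inf_le_right
  refine ⟨p', (k0.trans (inf_le_left.trans inf_le_left)).trans inf_le_left, hp0, η, j,
    fun ζ x => (c η ⊓ at' ζ x) ⊔ ((c η)ᶜ ⊓ af ζ x), max n (max nt nf), hη, hFr, le_max_left _ _,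
    fun ζ hζ => ?_, fun x => ?_⟩
  · ext x
    simp only
    rw [hat ζ hζ, haf ζ hζ, ← inf_sup_right, sup_compl_eq_top, top_inf_eq]
  · refine le_of_cases (a := c η) (bi_of_le inf_le_right (le_trans ?_ (hq' x)))
      (bi_of_le_compl inf_le_right (bi_mt (bi_symm (le_trans ?_ (hq x)))
        ((inf_le_left.trans inf_le_left).trans k2)))
    · refine le_inf ((inf_le_left.trans inf_le_left).trans k3)
        ((le_inf inf_le_right (inf_le_left.trans inf_le_right)).trans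
          ((CC_congr hS (fun ζ _ y => le_bi_iff.2 ?_) x).trans
            (CC_anti _ ((le_max_left _ _).trans (le_max_right _ _)) x)))
      rw [inf_sup_left, ← inf_assoc, ← inf_assoc, inf_idem, inf_compl_eq_bot, bot_inf_eq,
        sup_bot_eq]
    · refine le_inf ((inf_le_left.trans inf_le_left).trans k1)
        ((le_inf inf_le_right (inf_le_left.trans inf_le_right)).trans
          ((CC_congr hS (fun ζ _ y => le_bi_iff.2 ?_) x).trans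
            (CC_anti _ ((le_max_right _ _).trans (le_max_right _ _)) x)))
      rw [inf_sup_left, ← inf_assoc, ← inf_assoc, inf_idem, compl_inf_eq_bot, bot_inf_eq,
        bot_sup_eq]

lemma global_step [NoMaxOrder Γ] [Nonempty J] (hS : Local S)
    (hF1 : ∀ p ≠ ⊥, ∀ ξ, ∃ p' ≤ p, p' ≠ ⊥ ∧ ∃ η, ξ < η ∧ Fr p' η)
    (hn : ∀ a n p V, (∀ ζ ≤ n0, a ζ = a0 ζ) → n0 ≤ n → p ≤ p0 → p ≠ ⊥ → ¬ Pack S Bt a n p V)
    (P : Pos B Γ K) (ξ : Γ) (hP : ∀ ζ ≤ n0, P.a ζ = a0 ζ) :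
    ∃ Q : Pos B Γ K, P.Ext Q ∧ Q.m ξ = ⊤ ∧ ∀ p ≤ p0, p ≠ ⊥ → ∃ p2 η j, ξ < η ∧ Fr p2 η ∧
      p ⊓ p2 ≠ ⊥ ∧ ∀ x, p2 ⊓ Q.D S x ≤ c η ⇔ Bt j x := by
  classical
  have : Nonempty ((Γ → K → B) × Γ × Γ × Γ × J) := ⟨(P.a, ξ, ξ, ξ, Classical.arbitrary J)⟩
  obtain ⟨A, y, hy, hA, hon⟩ := exists_antichain
    (fun (p : B) (t : (Γ → K → B) × Γ × Γ × Γ × J) => p ≤ (P.m t.2.1)ᶜ ∧ ξ ≤ t.2.1 ∧
      t.2.1 ≤ t.2.2.1 ∧ (∀ ζ ≤ t.2.1, t.1 ζ = P.a ζ) ∧ (p ⊓ p0 = ⊥ ∨ (ξ < t.2.2.2.1 ∧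
        Fr p t.2.2.2.1 ∧ ∀ x, p ⊓ CC S t.1 t.2.2.1 x ≤ c t.2.2.2.1 ⇔ Bt t.2.2.2.2 x))) (by
    intro p hp
    have h1 : ∀ p ≠ ⊥, ∃ δ, ξ ≤ δ ∧ n0 ≤ δ ∧ p ⊓ (P.m δ)ᶜ ≠ ⊥ := by
      intro p hp
      have h1 : ¬ p ≤ ⨅ ζ, P.m ζ := by rw [P.bdd, le_bot_iff]; exact hp
      simp only [le_iInf_iff, not_forall] at h1
      obtain ⟨δ0, h1⟩ := h1
      exact ⟨max δ0 (max ξ n0), (le_max_left _ _).trans (le_max_right _ _),
        (le_max_right _ _).trans (le_max_right _ _),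
        inf_compl_ne_bot fun k => h1 (k.trans (P.anti (le_max_left _ _)))⟩
    by_cases h0 : p ⊓ p0 = ⊥
    · obtain ⟨δ, k1, -, k3⟩ := h1 p hp
      exact ⟨_, inf_le_left, k3, (P.a, δ, δ, ξ, Classical.arbitrary J), inf_le_right, k1, le_rfl,
        fun _ _ => rfl, Or.inl (le_bot_iff.1 (h0 ▸ inf_le_inf_right _ inf_le_left))⟩
    · obtain ⟨δ, k1, k2, k3⟩ := h1 _ h0
      obtain ⟨p', j1, j2, η, j, a', n', j3, j4, j5, j6, j7⟩ := pack_or_split (c := c) hS hF1 P.a δ ξ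
        fun V => hn P.a δ _ V hP k2 (inf_le_left.trans inf_le_right) k3
      exact ⟨p', j1.trans (inf_le_left.trans inf_le_left), j2, (a', δ, n', η, j),
        j1.trans inf_le_right, k1, j5, j6, Or.inr ⟨j3, j4, j7⟩⟩)
  let m : Γ → B := fun ζ => ⨆ q ∈ A, q ⊓ (if ζ ≤ (y q).2.2.1 then ⊤ else ⊥)
  have hm : ∀ p ∈ A, ∀ ζ, ζ ≤ (y p).2.2.1 → p ≤ m ζ := fun p hp ζ h =>
    le_iSup₂_of_le p hp (by simp [h])
  let Q : Pos B Γ K :=
    { a := fun ζ x => ⨆ q ∈ A, q ⊓ (y q).1 ζ x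
      m := m
      anti := fun ζ ζ' h => iSup₂_mono fun q _ => inf_le_inf_left _ (by
        by_cases h' : ζ' ≤ (y q).2.2.1
        · simp [h', h.trans h']
        · simp [h'])
      bdd := le_bot_iff.1 (hon _ _ fun p hp => by
        obtain ⟨ζ, hζ⟩ := exists_gt (y p).2.2.1
        refine (inf_le_inf_left _ (iInf_le _ ζ)).trans ?_
        simp only [m]
        rw [inf_mix hA (fun q => if ζ ≤ (y q).2.2.1 then ⊤ else ⊥) hp]
        simp [hζ.not_ge]) }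
  have ha : ∀ p ∈ A, ∀ ζ x, p ≤ Q.a ζ x ⇔ (y p).1 ζ x := fun p hp ζ x =>
    le_bi_iff.2 (inf_mix hA (fun q => (y q).1 ζ x) hp)
  have hz : ∀ p ∈ A, ∀ ζ, ¬ ζ ≤ (y p).2.1 → p ⊓ P.m ζ = ⊥ := fun p hp ζ h =>
    eq_bot_of_le_compl (inf_le_right.trans (P.anti (not_le.1 h).le)) (inf_le_left.trans (hy p hp).1)
  have hD : ∀ p ∈ A, ∀ x, p ⊓ Q.D S x ≤ CC S (y p).1 (y p).2.2.1 x := by
    intro p hp x
    refine le_iInf₂ fun ζ hζ => ?_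
    have k1 : p ⊓ Q.D S x ≤ Q.a ζ x ⇔ S Q.a ζ :=
      (le_inf (inf_le_right.trans (iInf_le _ ζ)) (inf_le_left.trans (hm p hp ζ hζ))).trans
        himp_inf_le
    exact bi_trans (bi_symm (inf_le_left.trans (ha p hp ζ x))) (bi_trans k1
      (inf_le_left.trans (hS _ _ ζ p fun η _ z => ha p hp η z)))
  refine ⟨Q, ⟨fun ζ => hon _ _ fun p hp => ?_, fun ζ x => hon _ _ fun p hp => ?_⟩,
    top_le_iff.1 (hon _ _ fun p hp => ?_), fun p hp hp0 => ?_⟩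
  · by_cases h : ζ ≤ (y p).2.1
    · exact inf_le_left.trans (hm p hp ζ (h.trans (hy p hp).2.2.1))
    · rw [hz p hp ζ h]; exact bot_le
  · by_cases h : ζ ≤ (y p).2.1
    · rw [← (hy p hp).2.2.2.1 ζ h]
      exact inf_le_left.trans (bi_symm (ha p hp ζ x))
    · rw [hz p hp ζ h]; exact bot_le
  · exact inf_le_left.trans (hm p hp ξ ((hy p hp).2.1.trans (hy p hp).2.2.1))
  · obtain ⟨q, hq, k⟩ : ∃ q ∈ A, q ⊓ p ≠ ⊥ := by
      by_contra hne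
      push Not at hne
      exact hp0 (le_bot_iff.1 (hon p ⊥ fun q hq => (hne q hq).le))
    rcases (hy q hq).2.2.2.2 with h | ⟨h1, h2, h3⟩
    · exact (k (le_bot_iff.1 (h ▸ inf_le_inf_left _ hp))).elim
    · exact ⟨q, _, _, h1, h2, by rwa [inf_comm],
        fun x => (le_inf inf_le_left (hD q hq x)).trans (h3 x)⟩

/-- The steering lemma. -/
lemma steer [NoMaxOrder Γ] [WellFoundedLT Γ] [Nonempty J] (hS : Local S) (hd : Distrib B Γ)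
    (hb : Bdd Γ) (hF1 : ∀ p ≠ ⊥, ∀ ξ, ∃ p' ≤ p, p' ≠ ⊥ ∧ ∃ η, ξ < η ∧ Fr p' η)
    (h0 : p0 ≠ ⊥) (W1 : ∀ a, p0 ≤ ⨆ x, FF S a x)
    (hA : ∀ x p, p ≠ ⊥ → p ≤ p0 ⊓ CC S a0 n0 x → ∃ p' ≤ p, p' ≠ ⊥ ∧ ∃ ξ, ∀ p2 η j, ξ < η →
      Fr p2 η → p' ⊓ p2 ≠ ⊥ → p' ⊓ p2 ⊓ (c η ⇔ Bt j x)ᶜ ≠ ⊥) :
    ∃ a n p V, (∀ ζ ≤ n0, a ζ = a0 ζ) ∧ n0 ≤ n ∧ p ≤ p0 ∧ p ≠ ⊥ ∧ Pack S Bt a n p V := by
  classical
  by_contra hne
  have hn : ∀ a n p V, (∀ ζ ≤ n0, a ζ = a0 ζ) → n0 ≤ n → p ≤ p0 → p ≠ ⊥ → ¬ Pack S Bt a n p V :=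
    fun a n p V h1 h2 h3 h4 h5 => hne ⟨a, n, p, V, h1, h2, h3, h4, h5⟩
  let P0 : Pos B Γ K := ⟨a0, fun ζ => if ζ ≤ n0 then ⊤ else ⊥, fun ζ ζ' h => by
    by_cases h' : ζ' ≤ n0
    · simp [h', h.trans h']
    · simp [h'], by
      obtain ⟨ζ, hζ⟩ := exists_gt n0
      exact le_bot_iff.1 ((iInf_le _ ζ).trans (by simp [hζ.not_ge]))⟩
  have hP0 : ∀ P, P0.Ext P → ∀ ζ ≤ n0, P.a ζ = a0 ζ := fun P h ζ hζ => by
    ext x
    have := le_bi_iff.1 (h.2 ζ x)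
    simpa [P0, hζ] using this.symm
  have : Nonempty (Pos B Γ K) := ⟨P0⟩
  choose! sp hsp1 hsp2 hsp3 using fun P ξ (h : P0.Ext P) =>
    global_step (c := c) hS hF1 hn P ξ (hP0 P h)
  have hun' : ∀ (ξ : Γ) (f : Γ → Pos B Γ K), (∀ ζ ζ', ζ ≤ ζ' → ζ' < ξ → (f ζ).Ext (f ζ')) →
      (∀ ζ < ξ, P0.Ext (f ζ)) → ∃ U, P0.Ext U ∧ ∀ ζ < ξ, (f ζ).Ext U := by
    intro ξ f h1 h2
    by_cases h : ∃ ζ, ζ < ξ
    · obtain ⟨U, hU⟩ := exists_union hd hb ξ f h1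
      obtain ⟨ζ, hζ⟩ := h
      exact ⟨U, (h2 ζ hζ).trans (hU ζ hζ), hU⟩
    · exact ⟨P0, Pos.Ext.refl _, fun ζ hζ => (h ⟨ζ, hζ⟩).elim⟩
  choose! un hun using hun'
  obtain ⟨T, hT⟩ := exists_fix (fun ξ g => sp (un ξ g) ξ) P0
  have hchain : ∀ ξ, P0.Ext (un ξ fun ζ => if ζ < ξ then T ζ else P0) ∧
      ∀ ζ < ξ, (T ζ).Ext (T ξ) := by
    intro ξ
    induction ξ using (wellFounded_lt (α := Γ)).induction with
    | _ ξ ih =>
      have h1 := hun ξ (fun ζ => if ζ < ξ then T ζ else P0) (fun η η' h h' => by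
        simp only [h', h.trans_lt h', if_true]
        rcases h.eq_or_lt with rfl | h
        · exact Pos.Ext.refl _
        · exact (ih η' h').2 η h) fun η h => by
        simp only [h, if_true]
        rw [hT η]
        exact (ih η h).1.trans (hsp1 _ _ (ih η h).1)
      refine ⟨h1.1, fun ζ hζ => ?_⟩
      have h2 := h1.2 ζ hζ
      simp only [hζ, if_true] at h2
      rw [hT ξ]
      exact h2.trans (hsp1 _ _ h1.1)
  have htop : ∀ ξ, (T ξ).m ξ = ⊤ := fun ξ => by rw [hT ξ]; exact hsp2 _ _ (hchain ξ).1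
  have hext : ∀ ξ, P0.Ext (T ξ) := fun ξ => by
    rw [hT ξ]; exact (hchain ξ).1.trans (hsp1 _ _ (hchain ξ).1)
  obtain ⟨x, hx⟩ := exists_inf_ne_bot h0 (W1 fun ζ => (T ζ).a ζ)
  obtain ⟨p', k1, k2, ξ, k3⟩ := hA x _ hx
    (inf_le_inf_left _ (FF_le_CC' hS (fun ζ hζ => hP0 _ (hext ζ) ζ hζ) x))
  obtain ⟨p2, η, j, j1, j2, j3, j4⟩ := hsp3 _ ξ (hchain ξ).1 p' (k1.trans inf_le_left) k2
  rw [← hT ξ] at j4
  refine k3 p2 η j j1 j2 j3 (eq_bot_of_le_compl (inf_le_left.trans (le_trans ?_ (j4 x)))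
    inf_le_right)
  refine le_inf inf_le_right (inf_le_left.trans ((k1.trans (le_inf le_top inf_le_right)).trans
    (FF_le_D hS _ _ ⊤ (fun ζ y => ?_) x)))
  rcases lt_trichotomy ζ ξ with h | rfl | h
  · have h1 := ((hchain ξ).2 ζ h).2 ζ y
    rw [htop] at h1
    exact bi_symm (le_top.trans h1)
  · exact bi_refl
  · exact inf_le_right.trans (((hchain ζ).2 ξ h).2 ζ y)

end steer

lemma bi_compl_self {p a : B} (h : p ≤ a ⇔ aᶜ) : p = ⊥ :=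
  le_bot_iff.1 (le_of_cases (a := a)
    (eq_bot_of_le_compl inf_le_right (le_bi_iff'.1 h).1).le
    (eq_bot_of_le_compl (le_bi_iff'.1 h).2 inf_le_right).le)

lemma bi_compl_of {p a b : B} (h : p ≤ (a ⇔ b)ᶜ) : p ≤ a ⇔ bᶜ := by
  refine le_bi_iff'.2 ⟨le_compl_iff_disjoint_right.2 (disjoint_iff.2 (eq_bot_of_le_compl
    (bi_of_le (inf_le_left.trans inf_le_right) inf_le_right)
    ((inf_le_left.trans inf_le_left).trans h))), ?_⟩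
  by_contra hn
  exact inf_compl_ne_bot hn (eq_bot_of_le_compl
    (bi_of_le_compl inf_le_right (inf_le_left.trans inf_le_right))
    ((inf_le_left.trans inf_le_left).trans h))

lemma tb_eq {q : B} {ε ε' : Bool} (hq : q ≠ ⊥)
    (h : q ≤ (bif ε then ⊤ else ⊥) ⇔ (bif ε' then ⊤ else ⊥)) : ε = ε' := by
  cases ε <;> cases ε'
  · rfl
  · exact (hq (by simpa using h)).elim
  · exact (hq (by simpa using h)).elim
  · rfl

lemma mix_bi {L : Type v} {e z : L → B} (he : ∀ k k', k ≠ k' → e k ⊓ e k' = ⊥) (k : L) :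
    e k ≤ (⨆ k', e k' ⊓ z k') ⇔ z k := by
  refine le_bi_iff'.2 ⟨?_, le_iSup_of_le k le_rfl⟩
  rw [inf_iSup_eq]
  refine iSup_le fun k' => ?_
  by_cases h : k = k'
  · subst h; exact inf_le_right.trans inf_le_right
  · rw [← inf_assoc, he k k' h, bot_inf_eq]; exact bot_le

theorem iSup_bad2 [NoMaxOrder Γ] [WellFoundedLT Γ] [Nonempty Γ] (hS : Local S)
    (hd : Distrib B Γ) (hb : Bdd Γ) {L : Type v} [Nonempty L] (c : Γ → B)
    (g : K → (L → Bool) → B) (e : Γ → L → B) (Fr : B → Γ → Prop)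
    (hF1 : ∀ p ≠ ⊥, ∀ ξ, ∃ p' ≤ p, p' ≠ ⊥ ∧ ∃ η, ξ < η ∧ Fr p' η)
    (hF2 : ∀ p ≠ ⊥, ∃ p' ≤ p, p' ≠ ⊥ ∧ ∃ ξ, ∀ p2 η, ξ < η → Fr p2 η → p' ⊓ p2 ≠ ⊥ →
      p' ⊓ p2 ⊓ c η ≠ ⊥ ∧ p' ⊓ p2 ⊓ (c η)ᶜ ≠ ⊥ ∧ ∀ x i, p' ⊓ p2 ⊓ (c η ⇔ g x i)ᶜ ≠ ⊥)
    (hfresh : ∀ p ≠ ⊥, ∀ x y, x ≠ y → ∃ i, p ⊓ g x i ⊓ (g y i)ᶜ ≠ ⊥)
    (he1 : ∀ ζ k k', k ≠ k' → e ζ k ⊓ e ζ k' = ⊥)
    (he2 : ∀ p ≠ ⊥, ∀ k δ, ∃ ζ, δ < ζ ∧ p ⊓ e ζ k ≠ ⊥) :
    ⨆ a, bad S a = ⊤ := by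
  classical
  by_contra hne
  set b0 := (⨆ a, bad S a)ᶜ with hb0
  have h0 : b0 ≠ ⊥ := by simpa [hb0] using hne
  have hbad : ∀ a, b0 ≤ (bad S a)ᶜ := fun a => compl_le_compl (le_iSup _ a)
  have W1 : ∀ a, b0 ≤ ⨆ x, FF S a x := fun a => by
    have := (hbad a).trans (compl_le_compl le_sup_left)
    rwa [compl_compl] at this
  have W2 : ∀ a ξ x, b0 ⊓ CC S a ξ x ≤ ⨆ (y : K) (_ : y ≠ x), CC S a ξ y := fun a ξ x => by
    by_contra hn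
    refine inf_compl_ne_bot hn (eq_bot_of_le_compl (a := bad S a) ?_
      ((inf_le_left.trans inf_le_left).trans (hbad a)))
    refine le_sup_of_le_right (le_iSup_of_le (ξ, x) ?_)
    exact inf_le_inf_right _ inf_le_right
  -- first use of the steering lemma: the generic bits
  obtain ⟨a1, n1, p1, V, -, -, h11, h12, hV⟩ := steer (Bt := fun i x => g x i) (c := c)
    (a0 := fun _ _ => ⊥) (n0 := Classical.arbitrary Γ) hS hd hb hF1 h0 W1 fun x p hp _ => by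
      obtain ⟨p', k1, k2, ξ, k3⟩ := hF2 p hp
      exact ⟨p', k1, k2, ξ, fun p2 η i j1 j2 j3 => (k3 p2 η j1 j2 j3).2.2 x i⟩
  obtain ⟨m1, hm1⟩ := exists_gt n1
  let a2 : Γ → K → B := fun ζ x => if ζ ≤ n1 then a1 ζ x else ⨅ i, g x i ⇔ V i
  have ha2 : ∀ x, a2 m1 x = ⨅ i, g x i ⇔ V i := fun x => if_neg hm1.not_ge
  have h2 : p1 ⊓ S a2 m1 = ⊥ := by
    by_contra h
    obtain ⟨x, hx⟩ := exists_inf_ne_bot h (inf_le_left.trans (h11.trans (W1 a2)))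
    obtain ⟨y, hy⟩ := exists_inf_ne_bot hx ((inf_le_inf (inf_le_left.trans h11)
      (FF_le_CC a2 m1 x)).trans (W2 a2 m1 x))
    obtain ⟨hyx, hy⟩ := exists_inf_ne_bot hy inf_le_right
    obtain ⟨i, hi⟩ := hfresh _ hy x y hyx.symm
    set q := p1 ⊓ S a2 m1 ⊓ FF S a2 x ⊓ (⨆ (_ : y ≠ x), CC S a2 m1 y) ⊓ CC S a2 m1 y
    have k0 : q ≤ S a2 m1 := ((inf_le_left.trans inf_le_left).trans inf_le_left).trans inf_le_right
    have k1 : q ≤ g x i ⇔ V i := (bi_mp (bi_symm (((inf_le_left.trans inf_le_left).trans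
      inf_le_right).trans (FF_le a2 x m1))) k0).trans (ha2 x ▸ iInf_le _ i)
    have k2 : q ≤ g y i ⇔ V i := (bi_mp (bi_symm (inf_le_right.trans (CC_le a2 y le_rfl))) k0).trans
      (ha2 y ▸ iInf_le _ i)
    exact hi (eq_bot_of_le_compl (inf_le_left.trans (le_bi_iff'.1 (bi_trans k1 (bi_symm k2))).1)
      inf_le_right)
  obtain ⟨r, hr, htri⟩ : ∃ r : (L → Bool) → (L → Bool) → Prop, WellFounded r ∧
      ∀ i j, i ≠ j → r i j ∨ r j i :=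
    ⟨WellOrderingRel, IsWellFounded.wf, fun i j h => (trichotomous_of WellOrderingRel i j).elim
      Or.inl fun k => Or.inr (k.resolve_left h)⟩
  let F : K → (L → Bool) → B := fun x i =>
    (g x i ⇔ V i)ᶜ ⊓ ⨅ (j : L → Bool) (_ : r j i), (g x j ⇔ V j)ᶜᶜ
  have hF : ∀ x i i', i ≠ i' → F x i ⊓ F x i' = ⊥ := by
    have key : ∀ x i i', r i i' → F x i ⊓ F x i' = ⊥ := fun x i i' h =>
      eq_bot_of_le_compl (inf_le_left.trans inf_le_left)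
        (inf_le_right.trans (inf_le_right.trans (iInf₂_le i h)))
    intro x i i' h
    rcases htri i i' h with h | h
    · exact key x i i' h
    · rw [inf_comm]; exact key x i' i h
  have hcov : ∀ x, p1 ⊓ CC S a2 m1 x ≤ ⨆ i, F x i := fun x => by
    have k : p1 ⊓ CC S a2 m1 x ≤ (a2 m1 x)ᶜ :=
      bi_mt (bi_symm (inf_le_right.trans (CC_le a2 x le_rfl)))
        (inf_le_left.trans (le_compl_iff_disjoint_right.2 (disjoint_iff.2 h2)))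
    rw [ha2, compl_iInf, iSup_least r hr] at k
    exact k
  let Bt : L → K → B := fun k x => ⨆ i, F x i ⊓ (bif i k then ⊤ else ⊥)
  have hBt : ∀ k x i, F x i ≤ Bt k x ⇔ (bif i k then ⊤ else ⊥) := fun k x i =>
    mix_bi (z := fun i => bif i k then ⊤ else ⊥) (hF x) i
  -- second use: the bits of the first index at which a point differs from `V`
  obtain ⟨a3, n3, p3, V', h31, h32, h33, h34, hV'⟩ := steer (Bt := Bt) (c := c) (a0 := a2)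
    (n0 := m1) hS hd hb hF1 h12 (fun a => h11.trans (W1 a)) fun x p hp hle => by
      obtain ⟨i, hi⟩ := exists_inf_ne_bot hp (hle.trans (hcov x))
      obtain ⟨p', k1, k2, ξ, k3⟩ := hF2 _ hi
      refine ⟨p', k1.trans inf_le_left, k2, ξ, fun p2 η k j1 j2 j3 h => ?_⟩
      have j4 : p' ⊓ p2 ≤ c η ⇔ (bif i k then ⊤ else ⊥) :=
        bi_trans (disjoint_compl_right_iff.1 (disjoint_iff.2 h))
          (inf_le_left.trans ((k1.trans inf_le_right).trans (hBt k x i)))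
      cases hik : i k <;> rw [hik] at j4
      · exact (k3 p2 η j1 j2 j3).1 (le_bot_iff.1 (le_bi_iff'.1 j4).1)
      · exact (k3 p2 η j1 j2 j3).2.1 (eq_bot_of_le_compl
          (inf_le_left.trans (bi_mp (bi_symm j4) le_top)) inf_le_right)
  have hstar : ∀ (a : Γ → K → B) (δ : Γ), (∀ ζ ≤ n3, a ζ = a3 ζ) →
      (∀ ζ, δ < ζ → ∀ y, a ζ y = ⨆ k, e ζ k ⊓ Bt k y) → ∀ x i k,
      p3 ⊓ FF S a x ⊓ F x i ≤ V' k ⇔ (bif i k then ⊤ else ⊥) := by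
    intro a δ k1 k2 x i k
    by_contra hn
    obtain ⟨ζ, hζ, h⟩ := he2 _ (inf_compl_ne_bot hn) k δ
    have j1 : ∀ y, e ζ k ≤ a ζ y ⇔ Bt k y := fun y => by
      rw [k2 ζ hζ y]; exact mix_bi (z := fun k => Bt k y) (he1 ζ) k
    have j2 := hV' a k1 ζ k (e ζ k) (S a ζ) fun y =>
      bi_trans (bi_symm (inf_le_left.trans (j1 y))) (inf_le_right.trans (CC_le a y le_rfl))
    refine h (eq_bot_of_le_compl ?_ (inf_le_left.trans inf_le_right))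
    have j3 := fun z => (inf_le_left.trans inf_le_left : p3 ⊓ FF S a x ⊓ F x i ⊓ z ⊓ e ζ k ≤ _)
    exact bi_trans ((le_inf ((j3 _).trans (inf_le_left.trans inf_le_left)) inf_le_right).trans j2)
      (bi_trans (bi_symm (((j3 _).trans (inf_le_left.trans inf_le_right)).trans (FF_le a x ζ)))
        (bi_trans (inf_le_right.trans (j1 x)) (((j3 _).trans inf_le_right).trans (hBt k x i))))
  have hpt : ∀ (a : Γ → K → B), (∀ ζ ≤ n3, a ζ = a3 ζ) → ∀ p ≤ p3, p ≠ ⊥ →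
      ∃ x i, p ⊓ FF S a x ⊓ F x i ≠ ⊥ := by
    intro a k1 p hp hp0
    obtain ⟨x, hx⟩ := exists_inf_ne_bot hp0 (hp.trans (h33.trans (h11.trans (W1 a))))
    exact ⟨x, exists_inf_ne_bot hx ((inf_le_inf (hp.trans h33) (FF_le_CC' hS
      (fun ζ hζ => (k1 ζ (hζ.trans h32)).trans (h31 ζ hζ)) x)).trans (hcov x))⟩
  let A : Γ → K → B := fun ζ y => if ζ ≤ n3 then a3 ζ y else ⨆ k, e ζ k ⊓ Bt k y
  have hA : ∀ ζ ≤ n3, A ζ = a3 ζ := fun ζ hζ => funext fun _ => if_pos hζ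
  obtain ⟨x, i, hxi⟩ := hpt A hA p3 le_rfl h34
  obtain ⟨m3, hm3⟩ := exists_gt n3
  let A' : Γ → K → B := fun ζ y => if ζ ≤ n3 then a3 ζ y else
    if ζ ≤ m3 then F y i else ⨆ k, e ζ k ⊓ Bt k y
  have hA' : ∀ ζ ≤ n3, A' ζ = a3 ζ := fun ζ hζ => funext fun _ => if_pos hζ
  have hA3 : ∀ y, A' m3 y = F y i := fun y => (if_neg hm3.not_ge).trans (if_pos le_rfl)
  obtain ⟨x', i', h⟩ := hpt A' hA' _ (inf_le_left.trans inf_le_left) hxi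
  set q := p3 ⊓ FF S A x ⊓ F x i ⊓ FF S A' x' ⊓ F x' i' with hq
  have q1 : q ≤ p3 ⊓ FF S A x ⊓ F x i := inf_le_left.trans inf_le_left
  have q2 : q ≤ p3 := q1.trans (inf_le_left.trans inf_le_left)
  have q3 : q ≤ FF S A' x' := inf_le_left.trans inf_le_right
  obtain rfl : i = i' := funext fun k => tb_eq h (bi_trans
    (bi_symm (q1.trans (hstar A n3 hA (fun ζ hζ y => if_neg hζ.not_ge) x i k)))
    ((le_inf (le_inf q2 q3) inf_le_right).trans (hstar A' m3 hA'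
      (fun ζ hζ y => (if_neg (hm3.trans hζ).not_ge).trans (if_neg hζ.not_ge)) x' i' k)))
  have q4 : q ≤ S A' m3 := bi_mp (q3.trans (FF_le A' x' m3)) (hA3 x' ▸ inf_le_right)
  have q5 := hV A' (fun ζ hζ => (hA' ζ (hζ.trans (hm1.le.trans h32))).trans
    ((h31 ζ (hζ.trans hm1.le)).trans (funext fun _ => if_pos hζ))) m3 i q (V i)ᶜ fun y =>
      bi_compl_of ((bi_mp (bi_symm (inf_le_right.trans (CC_le A' y le_rfl)))
        (inf_le_left.trans q4)).trans (hA3 y ▸ inf_le_left))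
  exact h (bi_compl_self ((le_inf (q2.trans h33) le_rfl).trans q5))

end Pool.Agent.Lib.MP_446da5_lc.Both
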