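import Pool.Agent.Lib.MP_446da5_lc.Both.Meas
import Pool.Agent.Lib.MP_446da5_lc.Both.Game

set_option autoImplicit false

open Filter Set Cardinal
open scoped symmDiff

namespace Pool.Agent.Lib.MP_446da5_lc.Both

open Full

universe u v

section

variable {L I : Type u}

lemma emb_le_compl {p q : Cond L × CondL I} (h : ∀ r, r ≤ p → r ≤ q → False) :
    (emb p : BB L I) ≤ (emb q)ᶜ :=
  le_compl_iff_disjoint_right.2 (disjoint_iff.2 (by
    by_contra hn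
    obtain ⟨r, h1, h2⟩ := emb_compat hn
    exact h r h1 h2))

lemma ne_bot_of_emb_le {p : Cond L × CondL I} {b : BB L I} (h : emb p ≤ b) : b ≠ ⊥ :=
  fun h0 => emb_ne_bot p (le_bot_iff.1 (h0 ▸ h))

lemma emb_le_sg_compl {p : Cond L × CondL I} {i : I} (h : p.2.f i = some false) :
    (emb p : BB L I) ≤ (sg i true)ᶜ := emb_le_compl fun r h1 h2 => by
  cases CondL.eq_of_le h1.2 h2.2 h (CondL.single_f.2 ⟨rfl, rfl⟩)

lemma cond_union (p q : Cond L) (h : ∀ i ε ε', p.f i = some ε → q.f i = some ε' → ε = ε') :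
    ∃ r : Cond L, r ≤ p ∧ r ≤ q ∧ ∀ i ε, r.f i = some ε → p.f i = some ε ∨ q.f i = some ε := by
  obtain ⟨r, hr⟩ := Cond.exists_of_rel (fun i ε => p.f i = some ε ∨ q.f i = some ε) (by
    rintro i e e' (k | k) (k' | k')
    · exact Cond.eq_of_le le_rfl le_rfl k k'
    · exact h i _ _ k k'
    · exact (h i _ _ k' k).symm
    · exact Cond.eq_of_le le_rfl le_rfl k k') ((p.cnt'.union q.cnt').mono (by
      rintro i ⟨e, k | k⟩
      · exact Or.inl ⟨e, k⟩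
      · exact Or.inr ⟨e, k⟩))
  exact ⟨r, fun i ε k => (hr i ε).2 (Or.inl k), fun i ε k => (hr i ε).2 (Or.inr k),
    fun i ε => (hr i ε).1⟩

end

namespace Setup

variable {K : Type u} [LinearOrder K] [WellFoundedLT K] (s : Setup K)

/-- The steering bits. -/
noncomputable def cc (η : s.Γ) : s.B := emb (Cond.single (η, 0) true, ⊤)

/-- The bits of the generic functions. -/
noncomputable def gg (x : K) (i : (ℕ → Bool) → Bool) : s.B := sg (x, i) true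

open Classical in
/-- The real `k` written at place `z`. -/
noncomputable def block (z : s.Γ) (k : ℕ → Bool) : Cond (s.Γ × ℕ) :=
  ⟨fun j => if j.1 = z ∧ j.2 ≠ 0 then some (k (j.2 - 1)) else none,
    (countable_range fun n => (z, n)).mono fun j hj => by
      by_contra hn
      exact hj (if_neg fun h => hn ⟨j.2, Prod.ext h.1.symm rfl⟩)⟩

/-- The generic enumeration of the reals. -/
noncomputable def ee (z : s.Γ) (k : ℕ → Bool) : s.B := emb (s.block z k, ⊤)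

/-- The condition leaves the steering bit undecided. -/
def Fr (p : s.B) (η : s.Γ) : Prop := ∃ t, p = emb t ∧ t.1.f (η, 0) = none

lemma exists_above (t : Cond (s.Γ × ℕ)) (ξ : s.Γ) :
    ∃ η, ξ < η ∧ ∀ ζ, η ≤ ζ → ∀ n, t.f (ζ, n) = none := by
  obtain ⟨β, h1, h2⟩ := s.bound (((t.cnt.image Prod.fst).insert ξ).image Subtype.val)
    (by rintro _ ⟨x, -, rfl⟩; exact x.2)
  refine ⟨⟨β, h1⟩, h2 _ ⟨ξ, mem_insert _ _, rfl⟩, fun ζ hζ n => ?_⟩
  by_contra hn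
  exact absurd (h2 _ ⟨ζ, mem_insert_of_mem _ ⟨(ζ, n), hn, rfl⟩, rfl⟩) (not_lt.2 hζ)

lemma hF1 : ∀ p : s.B, p ≠ ⊥ → ∀ ξ, ∃ p' ≤ p, p' ≠ ⊥ ∧ ∃ η, ξ < η ∧ s.Fr p' η := fun p hp ξ => by
  obtain ⟨t, ht⟩ := exists_emb_le hp
  obtain ⟨η, h1, h2⟩ := s.exists_above t.1 ξ
  exact ⟨emb t, ht, emb_ne_bot _, η, h1, t, rfl, h2 η le_rfl 0⟩

lemma hF2 : ∀ p : s.B, p ≠ ⊥ → ∃ p' ≤ p, p' ≠ ⊥ ∧ ∃ ξ, ∀ p2 η, ξ < η → s.Fr p2 η → p' ⊓ p2 ≠ ⊥ →
    p' ⊓ p2 ⊓ s.cc η ≠ ⊥ ∧ p' ⊓ p2 ⊓ (s.cc η)ᶜ ≠ ⊥ ∧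
      ∀ x i, p' ⊓ p2 ⊓ (s.cc η ⇔ s.gg x i)ᶜ ≠ ⊥ := fun p hp => by
  obtain ⟨t, ht⟩ := exists_emb_le hp
  obtain ⟨ξ, -, h2⟩ := s.exists_above t.1 (Classical.arbitrary _)
  refine ⟨emb t, ht, emb_ne_bot _, ξ, ?_⟩
  rintro _ η hη ⟨t', rfl, h3⟩ h4
  obtain ⟨r, k1, k2⟩ := emb_compat h4
  obtain ⟨w, w1, w2, w3⟩ := cond_union t.1 t'.1 fun i ε ε' => Cond.eq_of_le k1.1 k2.1
  have key : ∀ ε, ∃ w' : Cond (s.Γ × ℕ), w' ≤ w ∧ w'.f (η, 0) = some ε := fun ε => by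
    obtain ⟨w', j1, j2, -⟩ := w.exists_ext (η, 0) ε fun h => by
      rcases w3 _ _ h with h | h
      · rw [h2 η hη.le 0] at h
        cases h
      · rw [h3] at h
        cases h
    exact ⟨w', j1, j2⟩
  have low : ∀ w' ≤ w, ∀ q ≤ r.2, (emb (w', q) : s.B) ≤ emb t ⊓ emb t' := fun w' hw q hq =>
    le_inf (emb_mono (And.intro (hw.trans w1) (hq.trans k1.2)))
      (emb_mono (And.intro (hw.trans w2) (hq.trans k2.2)))
  have pos : ∀ (w' : Cond (s.Γ × ℕ)) q, w'.f (η, 0) = some true → (emb (w', q) : s.B) ≤ s.cc η :=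
    fun w' q h => emb_le_left.2 (Cond.le_single.2 h)
  have neg : ∀ (w' : Cond (s.Γ × ℕ)) q, w'.f (η, 0) = some false →
      (emb (w', q) : s.B) ≤ (s.cc η)ᶜ := fun w' q h => emb_le_compl fun r h1 h2 => by
    cases Cond.eq_of_le h1.1 h2.1 h (Cond.single_f.2 ⟨rfl, rfl⟩)
  obtain ⟨wt, t1, t2⟩ := key true
  obtain ⟨wf, f1, f2⟩ := key false
  refine ⟨ne_bot_of_emb_le (le_inf (low wt t1 _ le_rfl) (pos _ _ t2)),
    ne_bot_of_emb_le (le_inf (low wf f1 _ le_rfl) (neg _ _ f2)), fun x i => ?_⟩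
  by_cases h : r.2.f (x, i) = some true
  · refine ne_bot_of_emb_le (le_inf (low wf f1 _ le_rfl)
      (le_compl_iff_disjoint_right.2 (disjoint_iff.2 (eq_bot_of_le_compl ?_
        (inf_le_left.trans (neg _ _ f2))))))
    have h5 : (emb (wf, r.2) : s.B) ≤ s.gg x i := emb_le_sg.2 h
    exact (le_inf inf_le_right (inf_le_left.trans h5)).trans (le_bi_iff'.1 le_rfl).2
  · obtain ⟨q, j1, j2, -⟩ := r.2.exists_ext (x, i) false h
    refine ne_bot_of_emb_le (le_inf (low wt t1 _ j1)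
      (le_compl_iff_disjoint_right.2 (disjoint_iff.2 (eq_bot_of_le_compl ?_
        (inf_le_left.trans (emb_le_sg_compl (p := (wt, q)) j2))))))
    exact (le_inf inf_le_right (inf_le_left.trans (pos _ _ t2))).trans (le_bi_iff'.1 le_rfl).1

lemma hfresh : ∀ p : s.B, p ≠ ⊥ → ∀ x y : K, x ≠ y → ∃ i, p ⊓ s.gg x i ⊓ (s.gg y i)ᶜ ≠ ⊥ :=
  fun p hp x y hxy => by
  obtain ⟨t, ht⟩ := exists_emb_le hp
  obtain ⟨i, hi⟩ : ∃ i, i ∉ Prod.snd '' {j | t.2.f j ≠ none} := by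
    by_contra hn
    push Not at hn
    have h1 := (mk_image_le_lift (f := Prod.snd) (s := {j | t.2.f j ≠ none})).trans
      (Cardinal.lift_le.2 t.2.cnt)
    rw [eq_univ_of_forall hn, mk_univ, lift_continuum, ← lift_continuum.{u, 0},
      Cardinal.lift_le] at h1
    refine absurd h1 (not_le.2 ?_)
    simpa using cantor (𝔠 : Cardinal.{0})
  have h0 : ∀ z, t.2.f (z, i) = none := fun z => not_not.1 fun h => hi ⟨(z, i), h, rfl⟩
  obtain ⟨q, j1, j2, j3⟩ := t.2.exists_ext (x, i) true (by simp [h0])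
  obtain ⟨q', j4, j5, -⟩ := q.exists_ext (y, i) false fun h => by
    rcases j3 _ _ h with h | h
    · exact hxy (congrArg Prod.fst h).symm
    · rw [h0] at h
      cases h
  exact ⟨i, ne_bot_of_emb_le (p := (t.1, q')) (le_inf (le_inf
    ((emb_mono (p := (t.1, q')) (q := t) (And.intro le_rfl (j4.trans j1))).trans ht) (emb_le_sg.2 (j4 _ _ j2)))
    (emb_le_sg_compl j5))⟩

lemma he1 : ∀ z k k', k ≠ k' → s.ee z k ⊓ s.ee z k' = ⊥ := fun z k k' h => by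
  by_contra hn
  obtain ⟨r, h1, h2⟩ := emb_compat hn
  exact h (funext fun n => Cond.eq_of_le h1.1 h2.1 (i := (z, n + 1)) (by simp [block])
    (by simp [block]))

lemma he2 : ∀ p : s.B, p ≠ ⊥ → ∀ k d, ∃ z, d < z ∧ p ⊓ s.ee z k ≠ ⊥ := fun p hp k d => by
  obtain ⟨t, ht⟩ := exists_emb_le hp
  obtain ⟨z, h1, h2⟩ := s.exists_above t.1 d
  obtain ⟨w, w1, w2, -⟩ := cond_union t.1 (s.block z k) fun j ε ε' h h' => by
    have h3 : j.1 = z := by
      by_contra hn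
      simp [block, hn] at h'
    have h4 := h2 j.1 h3.ge j.2
    rw [h] at h4
    cases h4
  exact ⟨z, h1, ne_bot_of_emb_le (p := (w, t.2)) (le_inf
    ((emb_mono (p := (w, t.2)) (q := t) (And.intro w1 le_rfl)).trans ht) (emb_le_left.2 w2))⟩

lemma ev_not_wins : ∀ᶠ C in gen s.B, ¬ ChooseWinsIn C.N (C.kap K) (C.o s.g0) :=
  Full.ev_not_wins s.B s.g0 fun σ => iSup_bad2 (strat_local σ) s.distrib s.bdd s.cc s.gg s.ee
    s.Fr s.hF1 s.hF2 s.hfresh s.he1 s.he2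

end Setup

end Pool.Agent.Lib.MP_446da5_lc.Both
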