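import Pool.Agent.Lib.MP_446da5_lc.Both.Alg
import Pool.Agent.Lib.MP_446da5_lc.Both.Defs

set_option autoImplicit false

open Set Filter Cardinal
open scoped symmDiff

namespace Pool.Agent.Lib.MP_446da5_lc.Both

open Full Name

universe u v

variable {L I : Type u}

/-- Continuum many dense open sets have a dense intersection. -/
lemma CondL.inter {T : Type u} (hT : #T ≤ 𝔠) (E : T → CondL I → Prop)
    (h1 : ∀ t q, ∃ q' ≤ q, E t q') (h2 : ∀ t q q', q' ≤ q → E t q → E t q') (q0 : CondL I) :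
    ∃ q ≤ q0, ∀ t, E t q := by
  classical
  choose st hst1 hst2 using h1
  have hlb : ∀ (p : WO T → CondL I), (∀ s t, p s ≤ p t ∨ p t ≤ p s) → (∀ s, p s ≤ q0 ∨ q0 ≤ p s) →
      ∃ r ≤ q0, ∀ t, r ≤ p t := by
    intro p k1 k2
    obtain ⟨r, hr⟩ := CondL.exists_lb_chain (T := Option (WO T))
      (by rw [mk_option]; exact add_le_of_le aleph0_le_continuum hT (one_le_aleph0.trans
        aleph0_le_continuum)) (fun o => o.elim q0 p) (by
      rintro (_ | s) (_ | t)
      · exact Or.inl le_rfl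
      · exact (k2 t).symm
      · exact k2 s
      · exact k1 s t)
    exact ⟨r, hr none, fun t => hr (some t)⟩
  have : Nonempty (CondL I) := ⟨q0⟩
  choose! lb hlb1 hlb2 using hlb
  obtain ⟨g, hg⟩ := exists_fix (Γ := WO T) (fun t g => st t (lb g)) q0
  have key : ∀ t, g t ≤ q0 ∧ ∀ s < t, g t ≤ g s := by
    intro t
    induction t using (wellFounded_lt (α := WO T)).induction with
    | _ t ih =>
      have k2 : ∀ s, (if s < t then g s else q0) ≤ q0 := fun s => by
        by_cases h : s < t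
        · rw [if_pos h]; exact (ih s h).1
        · rw [if_neg h]
      have k1 : ∀ s s', (if s < t then g s else q0) ≤ (if s' < t then g s' else q0) ∨
          (if s' < t then g s' else q0) ≤ (if s < t then g s else q0) := fun s s' => by
        by_cases h : s < t
        · by_cases h' : s' < t
          · rw [if_pos h, if_pos h']
            rcases lt_trichotomy s s' with k | rfl | k
            · exact Or.inr ((ih s' h').2 s k)
            · exact Or.inl le_rfl
            · exact Or.inl ((ih s h).2 s' k)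
          · rw [if_neg h']; exact Or.inl (k2 s)
        · rw [if_neg h]; exact Or.inr (k2 s')
      rw [hg t]
      refine ⟨(hst1 _ _).trans (hlb1 _ k1 fun s => Or.inl (k2 s)), fun s hs => ?_⟩
      have := hlb2 _ k1 (fun s => Or.inl (k2 s)) s
      rw [if_pos hs] at this
      exact (hst1 _ _).trans this
  have k1 : ∀ s t, g s ≤ g t ∨ g t ≤ g s := fun s t => by
    rcases lt_trichotomy s t with k | rfl | k
    · exact Or.inr ((key t).2 s k)
    · exact Or.inl le_rfl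
    · exact Or.inl ((key s).2 t k)
  refine ⟨lb g, hlb1 g k1 fun s => Or.inl (key s).1, fun t =>
    h2 t _ _ (hlb2 g k1 (fun s => Or.inl (key s).1) t) ?_⟩
  rw [hg t]
  exact hst2 _ _

lemma mk_cond_le (h : #L ≤ 𝔠) : #(Cond L) ≤ 𝔠 := by
  have h1 : #(L × ULift.{u} Bool) ≤ 𝔠 := by
    rw [mk_prod, lift_id, lift_id]
    exact mul_le_of_le aleph0_le_continuum h (small_type _)
  refine (mk_le_of_injective (β := {t : Set (L × ULift.{u} Bool) // #t ≤ ℵ₀})
    (f := fun p => ⟨{k | p.f k.1 = some k.2.down}, le_aleph0_iff_set_countable.2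
      ((p.cnt'.prod countable_univ).mono fun k hk =>
        mem_prod.2 ⟨Exists.intro k.2.down hk, mem_univ _⟩)⟩) ?_).trans
    ((mk_bounded_set_le _ _).trans ?_)
  · rintro ⟨f, hf⟩ ⟨f', hf'⟩ k
    have k' : ∀ i ε, f i = some ε ↔ f' i = some ε := fun i ε =>
      Set.ext_iff.1 (Subtype.mk.inj k) (i, ⟨ε⟩)
    obtain rfl : f = f' := funext fun i => Option.ext fun ε => k' i ε
    rfl
  · exact (power_le_power_right (max_le h1 aleph0_le_continuum)).trans continuum_power_aleph0.le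

/-- The Boolean value determined by a set of conditions of the first factor. -/
noncomputable def lv (I : Type u) (s : Set (Cond L)) : BB L I := ⨆ r ∈ s, emb (r, ⊤)

/-- Subsets of a set of size at most continuum are added by the first factor only. -/
lemma easton {T : Type u} (hT : #T ≤ 𝔠) (hL : #L ≤ 𝔠) (a : T → BB L I) :
    ⨆ v : T → Set (Cond L), ⨅ t, a t ⇔ lv I (v t) = ⊤ := by
  by_contra hne
  obtain ⟨p, hp⟩ := exists_emb_le (compl_eq_bot.not.2 hne)
  obtain ⟨q, hq, hE⟩ := CondL.inter (T := T × Cond L) (by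
      rw [mk_prod, lift_id, lift_id]
      exact mul_le_of_le aleph0_le_continuum hT (mk_cond_le hL))
    (fun k q => emb (k.2, q) ≤ a k.1 ∨ ∀ q' ≤ q, ¬ emb (k.2, q') ≤ a k.1) (fun k q => by
      by_cases h : ∃ q' ≤ q, emb (k.2, q') ≤ a k.1
      · obtain ⟨q', k1, k2⟩ := h
        exact ⟨q', k1, Or.inl k2⟩
      · exact ⟨q, le_rfl, Or.inr fun q' k1 k2 => h ⟨q', k1, k2⟩⟩)
    (fun k q q' h k1 => k1.imp (fun k2 => (emb_mono (p := (k.2, q')) (q := (k.2, q))
      (Prod.le_def.2 ⟨le_rfl, h⟩)).trans k2)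
      fun k2 q'' k3 => k2 q'' (k3.trans h)) p.2
  refine emb_ne_bot (p.1, q) (eq_bot_of_le_compl (le_iSup_of_le
    (fun t => {r | emb (r, q) ≤ a t}) (le_iInf fun t => le_bi_iff'.2 ⟨?_, ?_⟩))
    ((emb_mono (p := (p.1, q)) (q := p) (Prod.le_def.2 ⟨le_rfl, hq⟩)).trans hp))
  · by_contra hn
    obtain ⟨r, hr⟩ := exists_emb_le (inf_compl_ne_bot hn)
    have k1 := (emb_le_emb.1 ((hr.trans inf_le_left).trans inf_le_left)).2
    refine emb_ne_bot r (eq_bot_of_le_compl (le_iSup₂_of_le r.1 ?_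
      (emb_le_left.2 le_rfl)) (hr.trans inf_le_right))
    exact (hE (t, r.1)).resolve_right fun k => k r.2 k1 ((hr.trans inf_le_left).trans inf_le_right)
  · rw [lv, inf_iSup₂_eq]
    refine iSup₂_le fun r hr => le_trans (le_emb (d := (r, q)) inf_le_right fun i ε h => ?_) hr
    exact inf_le_left.trans (emb_le_sg.2 h)

section order

variable {K : Type u} [LinearOrder K] [WellFoundedLT K]

lemma exists_Iio_card {μ : Cardinal.{u}} (h : μ < #K) : ∃ δ : K, #(Iio δ) = μ := by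
  have h1 : μ.ord < Ordinal.type (α := K) (· < ·) := by
    refine lt_of_not_ge fun k => h.not_ge ?_
    simpa using Ordinal.card_le_card k
  refine ⟨Ordinal.enum (α := K) (· < ·) ⟨μ.ord, h1⟩, ?_⟩
  have := Ordinal.card_typein (r := ((· < ·) : K → K → Prop))
    (Ordinal.enum (α := K) (· < ·) ⟨μ.ord, h1⟩)
  rw [Ordinal.typein_enum, card_ord] at this
  exact this.symm

lemma small_of_cnt (h : ∀ x : K, (Iic x).Countable) : #K ≤ 𝔠 := by
  by_contra hn
  obtain ⟨δ, hδ⟩ := exists_Iio_card (not_le.1 hn)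
  exact (aleph0_lt_continuum.trans_le hδ.ge).not_ge
    (le_aleph0_iff_set_countable.2 ((h δ).mono Iio_subset_Iic_self))

lemma exists_onto {U : Ultrafilter K} (hU : ∀ x : K, ∀ᶠ y : K in U, x < y) {V : Type u}
    [Nonempty V] (hV : Comp U V) : ∃ (δ : K) (e : K → V), ∀ v, ∃ ξ < δ, e ξ = v := by
  have h : #V < #K := lt_of_not_ge fun h => by
    obtain ⟨f⟩ := (Cardinal.le_def _ _).1 h
    obtain ⟨x, hx⟩ := hV.of_inj f.injective id
    obtain ⟨y, k1, k2⟩ := (hx.and (hU x)).exists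
    exact k2.ne' k1
  obtain ⟨δ, hδ⟩ := exists_Iio_card h
  obtain ⟨f⟩ := Cardinal.eq.1 hδ
  exact ⟨δ, Function.extend Subtype.val f fun _ => Classical.arbitrary V, fun v =>
    ⟨(f.symm v).1, (f.symm v).2, by rw [Subtype.val_injective.extend_apply]; simp⟩⟩

lemma ev_small {B : Type u} [CompleteBooleanAlgebra B] (g0 δ : K) (w : K → Iio g0 → B)
    (h : ∀ a : Iio g0 → B, ⨆ ξ, tv B (ξ < δ) ⊓ ⨅ ζ, a ζ ⇔ w ξ ζ = ⊤) :
    ∀ᶠ C in gen B, SmallPow C.N (C.o g0) (C.kap K) := by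
  filter_upwards [ev_op B, ev_mem_on B K, cl0 B δ,
    cl0 B (Name.mk K (fun ξ => op (on B ξ) (sub fun x => ⨆ hx : x < g0, w ξ ⟨x, hx⟩))
      fun ξ => tv B (ξ < δ)),
    dec1 (S2 := fun _ => K) (fun (τ : Name B) (ξ : K) =>
      tv B (ξ < δ) ⊓ ⨅ ζ : Iio g0, bmem (on B ζ.1) τ ⇔ w ξ ζ)] with C hop hmem h1 h2 h3
  refine ⟨_, C.o_mem_kap h1, _, Ctx.val_mem_N h2, fun ξ x y hx hy => ?_, ?_⟩
  · simp only [C.mem_val_mk, hop, ZFSet.pair_inj] at hx hy
    obtain ⟨i, hi, -, rfl, rfl⟩ := hx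
    obtain ⟨j, hj, -, k, rfl⟩ := hy
    rw [C.o_inj hj hi k]
  · rintro _ ⟨τ, hτ, rfl⟩ hsub
    obtain ⟨ξ, hξ, k⟩ := (h3 τ hτ).of_top (h _)
    rw [C.inf_iff] at k
    refine ⟨_, C.o_mem_o_of_lt hξ (C.tv_mem.1 k.1), (C.mem_val_mk _ _ _ _).2 ⟨ξ, hξ, k.1, ?_⟩⟩
    rw [hop]
    congr 1
    ext z
    rw [C.mem_sub]
    constructor
    · rintro ⟨y, hy, k1, rfl⟩
      by_cases hg : y < g0
      · rw [iSup_pos hg] at k1
        exact (hmem τ hτ y hy).1 (C.up (C.inf_mem (C.of_inf k.2 ⟨y, hg⟩) k1)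
          (le_bi_iff'.1 le_rfl).2)
      · rw [iSup_neg hg] at k1
        exact (C.bot_notMem k1).elim
    · intro hz
      obtain ⟨y, hy, hg, rfl⟩ := (C.mem_o _ _).1 (hsub hz)
      exact ⟨y, hy, C.sup_of hg (C.up (C.inf_mem (C.of_inf k.2 ⟨y, hg⟩)
        ((hmem τ hτ y hy).2 hz)) (le_bi_iff'.1 le_rfl).1), rfl⟩

/-- In the extension the power set of `g0` is listed below some `δ`. -/
theorem ev_smallPow (U : Ultrafilter K) [CountableInterFilter (U : Filter K)]
    (hU : ∀ x : K, ∀ᶠ y : K in U, x < y) (g0 : K) (hg : ∀ x < g0, (Iic x).Countable)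
    (I : Type u) : ∀ᶠ C in gen (BB (Iio g0 × ℕ) I), SmallPow C.N (C.o g0) (C.kap K) := by
  have h1 : #(Iio g0) ≤ 𝔠 := small_of_cnt fun ξ =>
    ((hg ξ.1 ξ.2).preimage Subtype.val_injective).mono fun _ h => h
  have h2 : #(Iio g0 × ℕ) ≤ 𝔠 := by
    rw [mk_prod, lift_uzero, mk_nat, lift_aleph0]
    exact mul_le_of_le aleph0_le_continuum h1 aleph0_le_continuum
  obtain ⟨δ, e, he⟩ := exists_onto hU (V := Iio g0 → Set (Cond (Iio g0 × ℕ)))
    ((comp_small h1).pi ((comp_small (mk_cond_le h2)).pi (comp_cnt Prop)))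
  refine ev_small g0 δ (fun ξ ζ => lv I (e ξ ζ)) fun a => ?_
  rw [← top_le_iff, ← easton h1 h2 a]
  refine iSup_le fun v => ?_
  obtain ⟨ξ, k, rfl⟩ := he v
  exact le_iSup_of_le ξ (by rw [tv_pos k, top_inf_eq])

end order

end Pool.Agent.Lib.MP_446da5_lc.Both
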