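import Pool.Agent.Lib.MP_446da5_lc.Full.Final
import Pool.Agent.Lib.MP_446da5_lc.Both.Meas
import Pool.Agent.Lib.MP_446da5_lc.Both.Hyp
import Pool.Agent.Lib.MP_446da5_lc.Both.Small

set_option autoImplicit false

open Filter Set Cardinal

namespace Pool.Agent.Lib.MP_446da5_lc.Both

open Full Name

universe u v

lemma exists_setup {K : Type u} [LinearOrder K] [WellFoundedLT K] [Uncountable K]
    (hK : ∀ x : K, #(Iic x) < #K) (U : Ultrafilter K) (h0 : ∀ x, {x} ∉ U)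
    [CardinalInterFilter (U : Filter K) #K] : Nonempty (Setup K) := by
  obtain ⟨s⟩ := Full.exists_setup hK U h0
  obtain ⟨R, hR⟩ := exists_reps (I := K × ((ℕ → Bool) → Bool)) s.U
  exact ⟨⟨s.U, s.cnt, s.unif, s.norm, s.g0, s.cnt_lt, s.unc, R, hR⟩⟩

/-- Generic filters over a countable model exist. -/
lemma exists_generic {N : Set ZFSet.{0}} (hN : N.Countable) {γ P R : ZFSet.{0}}
    (h : ClosedForcing N γ P R) : ∃ H, Generic N P R H := by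
  obtain ⟨hP, -, hne, hsub, hrefl, htr, -⟩ := h
  obtain ⟨f, hf⟩ := hN.exists_eq_range ⟨P, hP⟩
  have step : ∀ (n : ℕ) (p : {p // p ∈ P}), ∃ q : {p // p ∈ P}, ZFSet.pair q.1 p.1 ∈ R ∧
      ((∀ p ∈ P, ∃ q ∈ f n, ZFSet.pair q p ∈ R) → q.1 ∈ f n) := by
    intro n p
    by_cases k : ∀ p ∈ P, ∃ q ∈ f n, ZFSet.pair q p ∈ R
    · obtain ⟨q, k1, k2⟩ := k p.1 p.2
      exact ⟨⟨q, (ZFSet.pair_mem_prod.1 (hsub k2)).1⟩, k2, fun _ => k1⟩
    · exact ⟨p, hrefl _ p.2, fun k' => (k k').elim⟩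
  choose st h1 h2 using step
  obtain ⟨p0, hp0⟩ := (ZFSet.eq_empty_or_nonempty P).resolve_left hne
  let s : ℕ → {p // p ∈ P} := fun n => Nat.rec ⟨p0, hp0⟩ st n
  have hs : ∀ m n, m ≤ n → ZFSet.pair (s n).1 (s m).1 ∈ R := by
    intro m n k
    induction k with
    | refl => exact hrefl _ (s m).2
    | step _ ih => exact htr _ _ _ (h1 _ _) ih
  refine ⟨{q | ∃ n, ZFSet.pair (s n).1 q ∈ R}, ?_, ?_, ?_, fun D hD _ hd => ?_⟩
  · rintro q ⟨n, k⟩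
    exact (ZFSet.pair_mem_prod.1 (hsub k)).2
  · rintro p ⟨n, k⟩ q k'
    exact ⟨n, htr _ _ _ k k'⟩
  · rintro p ⟨m, k⟩ q ⟨n, k'⟩
    exact ⟨(s (max m n)).1, ⟨_, hrefl _ (s (max m n)).2⟩, htr _ _ _ (hs _ _ (le_max_left _ _)) k,
      htr _ _ _ (hs _ _ (le_max_right _ _)) k'⟩
  · obtain ⟨n, rfl⟩ : D ∈ range f := hf ▸ hD
    exact ⟨(s (n + 1)).1, h2 n (s n) hd, n + 1, hrefl _ (s (n + 1)).2⟩

theorem main (K : Type u) (U : Ultrafilter K) [Uncountable K] (h0 : ∀ x, {x} ∉ U)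
    (hU : CardinalInterFilter (U : Filter K) #K) :
    ∃ N : Set ZFSet.{0}, N.Countable ∧ IsModel N ∧ ∃ γ κ P R, ZFSet.omega ∈ γ ∧ γ ∈ κ ∧
      RegularIn N γ ∧ RegularIn N κ ∧ SmallPow N γ κ ∧ ClosedForcing N γ P R ∧
      (∃ H, Generic N P R H) ∧ GenMeasurable N κ P R ∧ ¬ ChooseWinsIn N κ γ := by
  obtain ⟨_, _, hK⟩ := exists_ord_eq_type_lt K
  obtain ⟨s⟩ := exists_setup (fun x => mk_Iic_lt x hK (aleph0_le_mk K)) U h0
  obtain ⟨e, w, he, hw⟩ := exists_omega_pos (K := K) (by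
    rw [← hK, ← ord_aleph0, ord_lt_ord]; exact aleph0_lt_mk)
  have hwg : w < s.g0 := lt_of_not_ge fun h =>
    s.unc ((countable_range e).mono fun x hx => (hw x).1 (lt_of_lt_of_le hx h))
  obtain ⟨C, hC⟩ : ∃ C : Ctx s.B, IsModel C.N ∧ ZFSet.omega ∈ C.o s.g0 ∧ C.o s.g0 ∈ C.kap K ∧
      RegularIn C.N (C.o s.g0) ∧ RegularIn C.N (C.kap K) ∧ SmallPow C.N (C.o s.g0) (C.kap K) ∧
      ClosedForcing C.N (C.o s.g0) (C.val (Pn s.B s.P)) (C.val (Rn s.B s.P)) ∧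
      GenMeasurable C.N (C.kap K) (C.val (Pn s.B s.P)) (C.val (Rn s.B s.P)) ∧
      ¬ ChooseWinsIn C.N (C.kap K) (C.o s.g0) := by
    refine Filter.Eventually.exists (f := gen s.B) ?_
    filter_upwards [ev_model s.B, ev_omega (B := s.B) e w he hw, cl0 s.B w, cl0 s.B s.g0,
      ev_on s.B K, s.ev_regular_gamma, s.ev_regular_kappa,
      ev_smallPow s.U s.unif s.g0 s.cnt_lt _, s.ev_closed, s.ev_genMeasurable,
      s.ev_not_wins] with C h1 h2 h3 h4 h5 h6 h7 h8 h9 h10 h11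
    exact ⟨h1 (h2 ▸ Ctx.val_mem_N (h5 w h3)), h2 ▸ C.o_mem_o_of_lt h3 hwg, C.o_mem_kap h4,
      h6, h7, h8, h9, h10, h11⟩
  obtain ⟨h1, h2, h3, h4, h5, h6, h7, h8⟩ := hC
  exact ⟨C.N, C.N_countable, h1, _, _, _, _, h2, h3, h4, h5, h6, h7,
    exists_generic C.N_countable h7, h8⟩

end Pool.Agent.Lib.MP_446da5_lc.Both
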