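import Pool.Agent.Lib.MP_446da5_lc.Both.Alg

set_option autoImplicit false

open Filter Set

namespace Pool.Agent.Lib.MP_446da5_lc.Both

open Full

universe u v

open Name

/-- Functions on a countable ordinal are captured by ground-model functions. -/
lemma ev_capture {L I K T : Type u} [LinearOrder K] [WellFoundedLT K] [Nonempty T]
    (nm : T → Name (BB L I)) : ∀ᶠ C in gen (BB L I), ∀ f : Name (BB L I), C.In f → ∀ d : K, C.In d →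
      (Iio d).Countable → ∃ h : K → T, C.In h ∧ ∀ ξ < d, C.In ξ → C.In (h ξ) ∧ ∀ t, C.In t →
        ZFSet.pair (C.o ξ) (C.val (nm t)) ∈ C.val f →
        ZFSet.pair (C.o ξ) (C.val (nm (h ξ))) ∈ C.val f := by
  filter_upwards [ev_fv (BB L I) K, cl1 (BB L I) (S2 := fun _ => Name (BB L I)) nm,
    cl2 (BB L I) (S3 := fun _ _ => T) (fun (h : K → T) (ξ : K) => h ξ),
    dec2 (S3 := fun _ _ => K → T) (fun (f : Name (BB L I)) (d : K) (h : K → T) =>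
      ⨅ (ξ : K) (_ : ξ < d), (⨆ t, bmem (op (on _ ξ) (nm t)) f) ⇨
        bmem (op (on _ ξ) (nm (h ξ))) f)] with C h1 h2 h3 h4 f hf d hd hc
  obtain ⟨h, hh, hG⟩ := (h4 f hf d hd).of_top (by
    by_contra hne
    obtain ⟨b, k1, k2, k3⟩ := distrib_cnt hc
      (fun ξ b => ∃ t', b ≤ (⨆ t, bmem (op (on _ ξ) (nm t)) f) ⇨ bmem (op (on _ ξ) (nm t')) f)
      (fun ξ b hb => by
        by_cases h0 : b ⊓ (⨆ t, bmem (op (on _ ξ) (nm t)) f) = ⊥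
        · exact ⟨b, le_rfl, hb, Classical.arbitrary T, le_himp_iff.2 (h0 ▸ bot_le)⟩
        · obtain ⟨t, ht⟩ := exists_inf_ne_bot h0 inf_le_right
          exact ⟨_, inf_le_left.trans inf_le_left, ht, t, inf_le_right.trans le_himp⟩)
      (fun _ _ _ h ⟨t, h'⟩ => ⟨t, h.trans h'⟩) _ (compl_eq_bot.not.2 hne)
    choose! h hh using k3
    exact k2 (eq_bot_of_le_compl (le_iSup_of_le h (le_iInf₂ hh)) k1))
  refine ⟨h, hh, fun ξ hξ hξ' => ⟨h3 h hh ξ hξ', fun t ht hp => ?_⟩⟩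
  exact (h1 f hf ξ hξ' _ (h2 _ (h3 h hh ξ hξ'))).1
    (C.mp (C.of_inf (C.of_inf hG ξ) hξ) (C.sup_of t ((h1 f hf ξ hξ' _ (h2 t ht)).2 hp)))

/-- The data from which the model is built. -/
structure Setup (K : Type u) [LinearOrder K] [WellFoundedLT K] where
  U : Ultrafilter K
  cnt : CountableInterFilter (U : Filter K)
  unif : ∀ x : K, ∀ᶠ y : K in U, x < y
  norm : ∀ h : K → K, (∀ᶠ y in U, h y < y) → ∃ x, ∀ᶠ y in U, h y = x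
  g0 : K
  cnt_lt : ∀ x < g0, (Iic x).Countable
  unc : ¬ (Iio g0).Countable
  R : Set (K → K × ((ℕ → Bool) → Bool))
  reps : Reps U R

namespace Setup

variable {K : Type u} [LinearOrder K] [WellFoundedLT K] (s : Setup K)

abbrev Γ : Type u := Iio s.g0
abbrev B : Type u := BB (s.Γ × ℕ) (K × ((ℕ → Bool) → Bool))
abbrev P : Type u := CondL s.R

instance : CountableInterFilter (s.U : Filter K) := s.cnt

instance : Nonempty s.Γ := by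
  by_contra h
  rw [not_nonempty_iff] at h
  exact s.unc (Set.to_countable _)

lemma bound {S : Set K} (hS : S.Countable) (h : ∀ x ∈ S, x < s.g0) :
    ∃ β < s.g0, ∀ x ∈ S, x < β := by
  by_contra hn
  push Not at hn
  refine s.unc ((hS.biUnion fun x hx => s.cnt_lt x (h x hx)).mono fun β hβ => ?_)
  obtain ⟨x, hx, h'⟩ := hn β hβ
  exact mem_biUnion hx h'

lemma cnt_Iic (ξ : s.Γ) : (Iic ξ).Countable :=
  ((s.cnt_lt ξ.1 ξ.2).preimage Subtype.val_injective).mono fun _ h => h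

lemma bdd : Bdd s.Γ := fun ξ f => by
  obtain ⟨β, h1, h2⟩ := s.bound (((s.cnt_Iic ξ).image f).image Subtype.val)
    (by rintro _ ⟨x, -, rfl⟩; exact x.2)
  exact ⟨⟨β, h1⟩, fun ζ hζ => h2 _ ⟨_, ⟨ζ, hζ, rfl⟩, rfl⟩⟩

instance : NoMaxOrder s.Γ := ⟨fun ξ => by
  obtain ⟨δ, h⟩ := s.bdd ξ id
  exact ⟨δ, h ξ le_rfl⟩⟩

lemma unc_Ioi (δ : s.Γ) : ¬ (Ioi δ).Countable := fun h => by
  have h1 : (univ : Set s.Γ).Countable := by
    rw [← Iic_union_Ioi (a := δ)]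
    exact (s.cnt_Iic δ).union h
  exact s.unc (countable_coe_iff.1 (countable_univ_iff.1 h1))

lemma distrib : Distrib s.B s.Γ := fun ξ E h1 h2 b hb => distrib_cnt (s.cnt_Iic ξ) E h1 h2 b hb

lemma comp_Iio (x : K) : Comp s.U (Iio x) := fun f => by
  obtain ⟨y, hy⟩ := s.norm (fun α => (f α).1) ((s.unif x).mono fun α h => (f α).2.trans h)
  obtain ⟨α, hα⟩ := hy.exists
  exact ⟨f α, hy.mono fun β hβ => Subtype.ext (hβ.trans hα.symm)⟩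

lemma compL : Comp s.U (s.Γ × ℕ) := (s.comp_Iio s.g0).prod (comp_cnt ℕ)

include s in
lemma neI : Nonempty (K × ((ℕ → Bool) → Bool)) := ⟨(s.g0, default)⟩

lemma ev_regular_gamma : ∀ᶠ C in gen s.B, RegularIn C.N (C.o s.g0) := by
  filter_upwards [ev_capture (K := K) (fun t : s.Γ => on s.B t.1),
    cl0 s.B (on s.B s.g0), cl1 s.B (S2 := fun _ => K) (fun t : s.Γ => t.1),
    sk1 s.B (S2 := fun _ => s.Γ) (fun (y : K) (t : s.Γ) => t.1 = y),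
    sk2 s.B (S3 := fun _ _ => K) (fun (h : K → s.Γ) (d : K) β =>
      β < s.g0 ∧ ∀ ξ < d, (h ξ).1 < β)] with C h1 h2 h3 h4 h5
  refine ⟨Ctx.val_mem_N h2, C.isOrdinal_o _, fun δ hδ => ?_⟩
  rintro _ ⟨f, hf, rfl⟩ hfun
  obtain ⟨d, hd, hdg, rfl⟩ := (C.mem_o _ _).1 hδ
  have hc : (Iio d).Countable := (s.cnt_lt d hdg).mono Iio_subset_Iic_self
  obtain ⟨h, hh, hcap⟩ := h1 f hf d hd hc
  obtain ⟨β, hβ, k1, k2⟩ := h5 h hh d hd (by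
    obtain ⟨β, k1, k2⟩ := s.bound (hc.image fun ξ => (h ξ).1)
      (by rintro _ ⟨x, -, rfl⟩; exact (h x).2)
    exact ⟨β, k1, fun ξ hξ => k2 _ ⟨ξ, hξ, rfl⟩⟩)
  refine ⟨_, C.o_mem_o_of_lt hβ k1, fun ξ y hp => ?_⟩
  obtain ⟨m1, m2⟩ := ZFSet.pair_mem_prod.1 (hfun.1 hp)
  obtain ⟨ξ, hξ, hξd, rfl⟩ := (C.mem_o _ _).1 m1
  obtain ⟨y, hy, hyg, rfl⟩ := (C.mem_o _ _).1 m2
  obtain ⟨t, ht, rfl⟩ := h4 y hy ⟨⟨y, hyg⟩, rfl⟩
  obtain ⟨j1, j2⟩ := hcap ξ hξd hξ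
  rw [IsFunc_unique hfun hp (j2 t ht hp)]
  exact C.o_mem_o_of_lt (h3 _ j1) (k2 ξ hξd)

lemma ev_regular_kappa : ∀ᶠ C in gen s.B, RegularIn C.N (C.kap K) := by
  have := s.neI
  filter_upwards [ev_fv s.B K, ev_on s.B K, cl0 s.B (sub fun _ : K => (⊤ : s.B)),
    dec2 (S3 := fun _ _ => K) (fun (f : Name s.B) (d : K) (β : K) =>
      ⨅ (ξ : K) (_ : ξ < d), (⨆ y : K, bmem (op (on _ ξ) (on _ y)) f) ⇨
        ⨆ y : K, tv _ (y < β) ⊓ bmem (op (on _ ξ) (on _ y)) f),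
    dec3 (S4 := fun _ _ _ => K) (fun (f : Name s.B) (ξ β y : K) =>
      tv _ (y < β) ⊓ bmem (op (on _ ξ) (on _ y)) f)] with C h1 h2 h3 h4 h5
  refine ⟨Ctx.val_mem_N h3, C.isOrdinal_kap, fun δ hδ => ?_⟩
  rintro _ ⟨f, hf, rfl⟩ hfun
  obtain ⟨d, hd, rfl⟩ := (C.mem_kap _).1 hδ
  obtain ⟨β, hβ, hG⟩ := (h4 f hf d hd).of_top (by
    by_contra hne
    have key : ∀ β : K, ∃ ξ < d, ∃ y : K, bmem (op (on s.B ξ) (on _ y)) f ⊓
        (⨆ y : K, tv _ (y < β) ⊓ bmem (op (on _ ξ) (on _ y)) f)ᶜ ≠ ⊥ := by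
      intro β
      by_contra hn
      push Not at hn
      refine hne (top_le_iff.1 (le_iSup_of_le β (le_iInf₂ fun ξ hξ => ?_)))
      rw [le_himp_iff, top_inf_eq]
      exact iSup_le fun y => disjoint_compl_right_iff.1 (disjoint_iff.2 (hn ξ hξ y))
    choose ξ hξ y hy using key
    obtain ⟨ξ0, h0⟩ := s.norm ξ ((s.unif d).mono fun β h => (hξ β).trans h)
    obtain ⟨β0, k1, k2⟩ := ((cc_of_reps s.compL s.reps _ hy).and h0).exists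
    obtain ⟨β, ⟨j1, j2⟩, j3⟩ := ((k1.and h0).and (s.unif (y β0))).exists
    refine j1 (eq_bot_of_le_compl ?_ (inf_le_right.trans inf_le_right))
    refine le_iSup_of_le (y β0) ?_
    rw [tv_pos j3, top_inf_eq, j2, ← k2]
    exact inf_le_left.trans inf_le_left)
  refine ⟨_, C.o_mem_kap hβ, fun ξ y hp => ?_⟩
  obtain ⟨m1, m2⟩ := ZFSet.pair_mem_prod.1 (hfun.1 hp)
  obtain ⟨ξ, hξ, hξd, rfl⟩ := (C.mem_o _ _).1 m1
  obtain ⟨y, hy, rfl⟩ := (C.mem_kap _).1 m2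
  obtain ⟨y', hy', k⟩ := (h5 f hf ξ hξ β hβ).sup
    (C.mp (C.of_inf (C.of_inf hG ξ) hξd) (C.sup_of y ((h1 f hf ξ hξ _ (h2 y hy)).2 hp)))
  rw [C.inf_iff, C.tv_mem] at k
  rw [IsFunc_unique hfun hp ((h1 f hf ξ hξ _ (h2 y' hy')).1 k.2)]
  exact C.o_mem_o_of_lt hy' k.1

lemma ev_closed : ∀ᶠ C in gen s.B,
    ClosedForcing C.N (C.o s.g0) (C.val (Pn s.B s.P)) (C.val (Rn s.B s.P)) := by
  have : Nonempty s.P := ⟨⊤⟩
  filter_upwards [ev_Rn s.B s.P, ev_Rn' s.B s.P, cl0 s.B (Pn s.B s.P), cl0 s.B (Rn s.B s.P),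
    cl0 s.B (⊤ : s.P), ev_capture (K := K) (fun t : s.P => pn s.B t),
    sk2 s.B (S3 := fun _ _ => K × K) (fun (h : K → s.P) (d : K) k =>
      k.1 < k.2 ∧ k.2 < d ∧ ¬ h k.2 ≤ h k.1),
    cl1 s.B (S2 := fun _ => K) (fun k : K × K => k.1),
    cl1 s.B (S2 := fun _ => K) (fun k : K × K => k.2),
    sk2 s.B (S3 := fun _ _ => s.P) (fun (h : K → s.P) (d : K) r => ∀ ξ < d, r ≤ h ξ)]
    with C hR hR' h1 h2 h3 hcap hsk hf1 hf2 hlb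
  refine ⟨Ctx.val_mem_N h1, Ctx.val_mem_N h2, fun h => ?_, fun z hz => ?_, fun z hz => ?_,
    fun x y z hxy hyz => ?_, fun δ hδ => ?_⟩
  · exact ZFSet.notMem_empty _ (h ▸ (C.mem_Pn _).2 ⟨⊤, h3, rfl⟩)
  · obtain ⟨p, q, hp, hq, -, rfl⟩ := (hR z).1 hz
    exact ZFSet.pair_mem_prod.2 ⟨(C.mem_Pn _).2 ⟨p, hp, rfl⟩, (C.mem_Pn _).2 ⟨q, hq, rfl⟩⟩
  · obtain ⟨p, hp, rfl⟩ := (C.mem_Pn _).1 hz
    exact (hR'.2 p p hp hp).2 le_rfl
  · obtain ⟨p, q, hp, hq, h, rfl, rfl⟩ := hR'.1 _ _ hxy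
    obtain ⟨q', r, hq', hr, h', he, rfl⟩ := hR'.1 _ _ hyz
    obtain rfl := C.pn_inj hq' hq he
    exact (hR'.2 p r hp hr).2 (h.trans h')
  rintro _ ⟨f, hf, rfl⟩ hfun hdec
  obtain ⟨d, hd, hdg, rfl⟩ := (C.mem_o _ _).1 hδ
  have hc : (Iio d).Countable := (s.cnt_lt d hdg).mono Iio_subset_Iic_self
  obtain ⟨h, hh, hcap⟩ := hcap f hf d hd hc
  have hval : ∀ ξ < d, C.In ξ → ZFSet.pair (C.o ξ) (C.c (h ξ)) ∈ C.val f := by
    intro ξ hξ hξ'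
    obtain ⟨y, hy, -⟩ := hfun.2 _ (C.o_mem_o_of_lt hξ' hξ)
    obtain ⟨p, hp, rfl⟩ := (C.mem_Pn _).1 (ZFSet.pair_mem_prod.1 (hfun.1 hy)).2
    exact (hcap ξ hξ hξ').2 p hp hy
  have hmono : ∀ ξ η, ξ < η → η < d → h η ≤ h ξ := by
    by_contra hn
    push Not at hn
    obtain ⟨ξ, η, k⟩ := hn
    obtain ⟨k, hk, k1, k2, k3⟩ := hsk h hh d hd ⟨(ξ, η), k⟩
    have j1 := hf1 k hk
    have j2 := hf2 k hk
    exact k3 ((hR'.2 _ _ (hcap _ k2 j2).1 (hcap _ (k1.trans k2) j1).1).1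
      (hdec _ _ _ _ (C.o_mem_o_of_lt j1 k1) (hval _ (k1.trans k2) j1) (hval _ k2 j2)))
  obtain ⟨r, hr, hr'⟩ := hlb h hh d hd (by
    obtain ⟨r, hr⟩ := CondL.exists_lb_chain (small_cnt hc) (fun ξ : Iio d => h ξ.1) fun ξ η => by
      rcases lt_trichotomy ξ.1 η.1 with k | k | k
      · exact Or.inr (hmono _ _ k η.2)
      · rw [k]; exact Or.inl le_rfl
      · exact Or.inl (hmono _ _ k ξ.2)
    exact ⟨r, fun ξ hξ => hr ⟨ξ, hξ⟩⟩)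
  refine ⟨_, (C.mem_Pn _).2 ⟨r, hr, rfl⟩, fun ξ p hp => ?_⟩
  obtain ⟨ξ, hξ, hξd, rfl⟩ := (C.mem_o _ _).1 (ZFSet.pair_mem_prod.1 (hfun.1 hp)).1
  rw [IsFunc_unique hfun hp (hval ξ hξd hξ)]
  exact (hR'.2 _ _ hr (hcap _ hξd hξ).1).2 (hr' ξ hξd)

end Setup

end Pool.Agent.Lib.MP_446da5_lc.Both
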